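import Pool.Agent.T2h17.AH.End

/-!
The total codimension, from an abstract transversality.
-/

set_option autoImplicit false
set_option maxHeartbeats 400000

open Matrix Module

namespace Pool.Agent.T2h17.AH

variable {n k : ℕ}

/-- **the total codimension** -/
theorem bound_abs {C : Matrix (Fin n) (Fin n) ℂ} (hC : C.det ≠ 0)
    (φ : Matrix (Fin n) (Fin n) ℂ →ₗ[ℂ] Matrix (Fin n) (Fin n) ℂ) (hφ : ∀ Y, φ Y = C⁻¹ * Y * C)
    {g T : Submodule ℂ (Matrix (Fin n) (Fin n) ℂ)}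
    (L : Fin k → Submodule ℂ (Matrix (Fin n) (Fin n) ℂ))
    (hT : ∀ Y : Fin k → Matrix (Fin n) (Fin n) ℂ, (∀ j, Y j ∈ g) → ∃ Z ∈ T, ∀ j, φ (Y j + Z) ∈ L j)
    (hL : ∀ j, (1 : Matrix (Fin n) (Fin n) ℂ) ∈ L j) {ν : ℕ}
    (hν : finrank ℂ T ≤ ν ∨ (1 ≤ n ∧ (1 : Matrix (Fin n) (Fin n) ℂ) ∈ T ∧ finrank ℂ T ≤ ν + 1)) :
    ∑ j, (finrank ℂ (g.map φ) - finrank ℂ (g.map φ ⊓ L j : Submodule ℂ _)) ≤ ν := by
  classical
  have h1 := Pool.Agent.T2h17.TV.dim_ineq (g.map φ) (T.map φ) L (by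
    intro Y hY
    choose Y' hY' hYY using hY
    obtain ⟨Z, hZ, hmem⟩ := hT Y' hY'
    refine ⟨φ Z, Submodule.mem_map_of_mem hZ, fun j => ?_⟩
    rw [← hYY j, ← map_add]
    exact hmem j)
  have h2 : finrank ℂ (T.map φ) ≤ finrank ℂ T := Submodule.finrank_map_le _ _
  rcases hν with hν | ⟨hn, h1T, hν⟩
  · omega
  · have hu : IsUnit C.det := isUnit_iff_ne_zero.2 hC
    have : NeZero n := ⟨by omega⟩
    have h3 : (1 : Matrix (Fin n) (Fin n) ℂ) ∈ (T.map φ ⊓ ⨅ j, L j : Submodule ℂ _) := by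
      refine ⟨⟨1, h1T, ?_⟩, ?_⟩
      · rw [hφ, Matrix.mul_one, Matrix.nonsing_inv_mul _ hu]
      · rw [SetLike.mem_coe, Submodule.mem_iInf]
        exact hL
    have h4 : (1 : Matrix (Fin n) (Fin n) ℂ) ≠ 0 := one_ne_zero
    have h5 : Nontrivial (T.map φ ⊓ ⨅ j, L j : Submodule ℂ _) :=
      ⟨⟨⟨1, h3⟩, 0, fun h => h4 (congrArg Subtype.val h)⟩⟩
    have h6 : 0 < finrank ℂ (T.map φ ⊓ ⨅ j, L j : Submodule ℂ _) := Module.finrank_pos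
    omega

end Pool.Agent.T2h17.AH
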