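import Pool.Agent.T2h17.AH.Core
import Pool.Agent.T2h17.TV.Dim
import Pool.Agent.T2h17.TV.Tr
import Pool.Agent.T2h17.TV.Sum

/-!
Transversality at points which are generic in bounded degree, for algebraic tensors, and the total
codimension.
-/

set_option autoImplicit false
set_option maxHeartbeats 400000

open Matrix Filter Module

namespace Pool.Agent.T2h17.AH

open Pool.Agent.T2h17.HW (En Gen tc tc_pow)
open Pool.Agent.T2h17.TV (Tg cj dim_ineq)

variable {n k r : ℕ}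

/-- the conclusion -/
def Trans3 (β : Fin n × Fin n → Fin r → ℂ) (N : Matrix (Fin n) (Fin n) ℚ) (𝒩 : Set (Dir r n))
    (d0 a0 D0 : ℕ) (C : Matrix (Fin n) (Fin n) ℂ) (v : Fin k → Fin r → ℂ) (l : ℂ) (t : Fin k → ℂ) :
    Prop :=
  ∀ Y : Fin k → Matrix (Fin n) (Fin n) ℂ,
    (∀ j, Y j ∈ Submodule.span ℂ (Prod.snd '' 𝒩 ∪ {tc N})) →
    ∃ Z ∈ Tg d0 C ⊔ Submodule.span ℂ {tc N},
      (blockDiagonal fun j => C⁻¹ * (Y j + Z) * C) ∈
        LieT D0 a0 (blockDiagonal fun j => bt β (v j) * En (tc N) (-(l + t j)) * C)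

theorem En_inv {N : Matrix (Fin n) (Fin n) ℚ} (hN : N ^ n = 0) (s : ℂ) :
    En (tc N) s * En (tc N) (-s) = 1 := by
  have hNc : tc N ^ n = 0 := by
    rw [← tc_pow, hN]
    ext i j
    simp [tc]
  exact Pool.Agent.Y119.HY.E_mul_neg hNc s

theorem det_En {N : Matrix (Fin n) (Fin n) ℚ} (hN : N ^ n = 0) (s : ℂ) : (En (tc N) s).det ≠ 0 := by
  intro h0
  have h1 := congrArg Matrix.det (En_inv hN s)
  rw [Matrix.det_mul, h0, zero_mul, Matrix.det_one] at h1
  exact zero_ne_one h1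

/-- **transversality** -/
theorem trans3 (k : ℕ) {β : Fin n × Fin n → Fin r → ℂ} (hβ : ∀ a s, IsAlgebraic ℚ (β a s))
    {N : Matrix (Fin n) (Fin n) ℚ} (hN : N ^ n = 0) {𝒩 : Set (Dir r n)}
    (hn : ∀ X ∈ 𝒩, X.1 ^ r = 0) (heq : ∀ X ∈ 𝒩, ∀ y, bt β (y ᵥ* X.1) = bt β y * X.2)
    (hconj : ∀ X ∈ Prod.snd '' 𝒩, ∀ s,
      En (tc N) s * X * En (tc N) (-s) ∈ Submodule.span ℂ (Prod.snd '' 𝒩))
    (d0 a0 D0 : ℕ) : ∃ d : ℕ, ∀ (C : Matrix (Fin n) (Fin n) ℂ)
      (v : Fin k → Fin r → ℂ) (l : ℂ) (t : Fin k → ℂ), C.det ≠ 0 →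
      (∀ j, (bt β (v j)).det ≠ 0) → Gen (Prod.fst '' 𝒩) d 1 (fun j => row (v j)) t →
      Trans3 β N 𝒩 d0 a0 D0 C v l t := by
  classical
  have hconj' : ∀ X ∈ Submodule.span ℂ (Prod.snd '' 𝒩), ∀ s,
      En (tc N) s * X * En (tc N) (-s) ∈ Submodule.span ℂ (Prod.snd '' 𝒩) := by
    intro X hX s
    induction hX using Submodule.span_induction with
    | mem X h => exact hconj X h s
    | zero =>
      rw [Matrix.mul_zero, Matrix.zero_mul]
      exact Submodule.zero_mem _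
    | add A B _ _ hA hB =>
      rw [Matrix.mul_add, Matrix.add_mul]
      exact Submodule.add_mem _ hA hB
    | smul c A _ hA =>
      rw [Matrix.mul_smul, Matrix.smul_mul]
      exact Submodule.smul_mem _ _ hA
  by_contra hcon
  push Not at hcon
  have h1 : ∀ d : ℕ, Nonempty (Bad3 (k := k) β N 𝒩 d0 a0 D0 d) := by
    intro d
    obtain ⟨C, v, l, t, hC, hh, hG, hnot⟩ := hcon d
    unfold Trans3 at hnot
    push Not at hnot
    obtain ⟨Y, hY, hnot⟩ := hnot
    have h2 : ∀ j, ∃ (Z : Matrix (Fin n) (Fin n) ℂ) (μ : ℂ), Z ∈ Submodule.span ℂ (Prod.snd '' 𝒩) ∧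
        Y j = Z + μ • tc N := by
      intro j
      have h3 := hY j
      rw [Submodule.span_union, Submodule.mem_sup] at h3
      obtain ⟨Z, hZ, W, hW, h4⟩ := h3
      obtain ⟨μ, rfl⟩ := Submodule.mem_span_singleton.1 hW
      exact ⟨Z, μ, hZ, h4.symm⟩
    choose W μ hW hWY using h2
    refine ⟨{ C := C, v := v, l := l, t := t, W := W, μ := μ
              hC := hC, hh := hh, hG := hG, hW := hW
              hnot := fun Z hZ c hmem => ?_ }⟩
    refine hnot (Z + c • tc N) (Submodule.add_mem_sup hZ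
      (Submodule.smul_mem _ _ (Submodule.subset_span rfl))) ?_
    have h3 : (blockDiagonal fun j => C⁻¹ * (Y j + (Z + c • tc N)) * C) =
        blockDiagonal fun j => C⁻¹ * (W j + μ j • tc N + Z + c • tc N) * C := by
      congr 1
      funext j
      rw [hWY j]
      congr 2
      abel
    rw [h3]
    exact hmem
  exact no_bad3 hβ hN hn heq hconj' (En_inv hN) fun d => (h1 d).some

/-! ### the components -/

/-- the inclusion of a component -/
def inc (R : Type) [Zero R] [One R] (n : ℕ) {k : ℕ} (j : Fin k) : Matrix (Fin n × Fin k) (Fin n) R :=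
  Matrix.of fun a c => if a = (c, j) then 1 else 0

theorem bd_inc {R : Type} [CommRing R] (P : Fin k → Matrix (Fin n) (Fin n) R) (j : Fin k) :
    blockDiagonal P * inc R n j = inc R n j * P j := by
  ext ⟨a, j'⟩ c
  rw [Matrix.mul_apply, Matrix.mul_apply]
  rw [Finset.sum_eq_single (c, j)]
  · simp only [inc, Matrix.of_apply, if_true, mul_one]
    rw [blockDiagonal_apply]
    by_cases h : j' = j
    · subst h
      rw [if_pos rfl, Finset.sum_eq_single a]
      · rw [if_pos rfl, one_mul]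
      · intro b _ hb
        rw [if_neg (fun h => hb (Prod.ext_iff.1 h).1.symm), zero_mul]
      · intro h
        exact absurd (Finset.mem_univ _) h
    · rw [if_neg h]
      symm
      refine Finset.sum_eq_zero fun b _ => ?_
      rw [if_neg (fun h' => h (Prod.ext_iff.1 h').2), zero_mul]
  · intro b _ hb
    simp only [inc, Matrix.of_apply]
    rw [if_neg hb, mul_zero]
  · intro h
    exact absurd (Finset.mem_univ _) h

theorem inc_bd {R : Type} [CommRing R] (P : Fin k → Matrix (Fin n) (Fin n) R) (j : Fin k) :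
    (inc R n j)ᵀ * blockDiagonal P = P j * (inc R n j)ᵀ := by
  have h1 := bd_inc (fun j => (P j)ᵀ) j
  have h2 := congrArg Matrix.transpose h1
  rw [transpose_mul, transpose_mul, transpose_transpose, ← blockDiagonal_transpose] at h2
  simpa using h2

theorem inc_inc {R : Type} [CommRing R] (j : Fin k) : (inc R n j)ᵀ * inc R n j = 1 := by
  ext a c
  rw [Matrix.mul_apply, Finset.sum_eq_single (c, j)]
  · simp only [inc, Matrix.of_apply, transpose_apply, if_true, mul_one, Matrix.one_apply]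
    by_cases h : a = c
    · subst h
      simp
    · rw [if_neg (fun h' => h (Prod.ext_iff.1 h').1.symm), if_neg h]
  · intro b _ hb
    simp only [inc, Matrix.of_apply, transpose_apply]
    rw [if_neg hb, mul_zero]
  · intro h
    exact absurd (Finset.mem_univ _) h

theorem tc_inc (j : Fin k) : tc (inc ℚ n j) = inc ℂ n j := by
  ext a c
  simp only [tc, Matrix.map_apply, inc, Matrix.of_apply]
  split_ifs <;> simp

theorem tc_pw {α β : Type} (a : ℕ) (A : Matrix α β ℚ) : tc (pw a A) = pw a (tc A) := by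
  ext i m
  simp only [tc, Matrix.map_apply, pw, tp_apply]
  push_cast
  rfl

theorem pw_inc (a : ℕ) (j : Fin k) : pw a (inc ℂ n j)ᵀ * pw a (inc ℂ n j) = 1 := by
  rw [← pw_mul, inc_inc, pw_one]

theorem pw_tr {α β : Type} {R : Type} [CommRing R] (a : ℕ) (A : Matrix α β R) : pw a Aᵀ = (pw a A)ᵀ := by
  ext i m
  rfl

/-- entries of products with the inclusions -/
theorem inc_entry (a : ℕ) (j : Fin k) (i : Fin a → Fin n × Fin k) (m : Fin a → Fin n) :
    pw a (inc ℂ n j) i m = if i = (fun s => (m s, j)) then 1 else 0 := by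
  show ∏ s, (if i s = (m s, j) then (1 : ℂ) else 0) = _
  by_cases h : i = fun s => (m s, j)
  · rw [if_pos h]
    refine Finset.prod_eq_one fun s _ => ?_
    rw [if_pos (congrFun h s)]
  · rw [if_neg h]
    obtain ⟨s, hs⟩ : ∃ s, i s ≠ (m s, j) := by
      by_contra hcon
      push Not at hcon
      exact h (funext hcon)
    exact Finset.prod_eq_zero (Finset.mem_univ s) (if_neg hs)

/-- **the component of an operator which preserves the tensors of the direct sum** -/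
theorem lie_comp {D0 a0 : ℕ} {P X : Fin k → Matrix (Fin n) (Fin n) ℂ} (hP : ∀ j, (P j).det ≠ 0)
    (hX : blockDiagonal X ∈ LieT D0 a0 (blockDiagonal P)) (j : Fin k) : X j ∈ LieT D0 a0 (P j) := by
  classical
  intro a ha b hb T hT
  set T' : Matrix (Fin a → Fin n × Fin k) (Fin b → Fin n × Fin k) ℚ :=
    pw a (inc ℚ n j) * T * pw b (inc ℚ n j)ᵀ with hT'
  have htc : tc T' = pw a (inc ℂ n j) * tc T * pw b (inc ℂ n j)ᵀ := by
    rw [hT', Pool.Agent.T2h17.HW.tc_mul, Pool.Agent.T2h17.HW.tc_mul, tc_pw, tc_pw, tc_inc]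
    have h1 : tc (inc ℚ n j)ᵀ = (inc ℂ n j)ᵀ := by rw [← tc_inc]; rfl
    rw [h1]
  have hinv : (blockDiagonal P)⁻¹ = blockDiagonal fun j => (P j)⁻¹ := by
    refine Matrix.inv_eq_left_inv ?_
    rw [← blockDiagonal_mul]
    have h1 : (fun j => (P j)⁻¹ * P j) = fun _ => (1 : Matrix (Fin n) (Fin n) ℂ) := by
      funext j
      exact Matrix.nonsing_inv_mul _ (isUnit_iff_ne_zero.2 (hP j))
    rw [h1]
    exact blockDiagonal_one
  obtain ⟨K, κ, hK1, hK2, hκ, hw⟩ := hT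
  choose w hw hw' using hw
  obtain ⟨μ, hμ⟩ := hX a ha b hb T' ⟨K, κ, hK1, hK2, hκ, fun i m => by
    have h1 : pw a (blockDiagonal P) * tc T' * pw b (blockDiagonal P)⁻¹ =
        pw a (inc ℂ n j) * (pw a (P j) * tc T * pw b (P j)⁻¹) * pw b (inc ℂ n j)ᵀ := by
      rw [htc, hinv]
      calc pw a (blockDiagonal P) * (pw a (inc ℂ n j) * tc T * pw b (inc ℂ n j)ᵀ) *
            pw b (blockDiagonal fun j => (P j)⁻¹) =
          (pw a (blockDiagonal P) * pw a (inc ℂ n j)) * tc T * (pw b (inc ℂ n j)ᵀ *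
            pw b (blockDiagonal fun j => (P j)⁻¹)) := by simp only [Matrix.mul_assoc]
        _ = (pw a (inc ℂ n j) * pw a (P j)) * tc T * (pw b (P j)⁻¹ * pw b (inc ℂ n j)ᵀ) := by
          rw [← pw_mul, ← pw_mul, ← pw_mul, ← pw_mul, bd_inc, inc_bd]
        _ = _ := by simp only [Matrix.mul_assoc]
    rw [h1]
    set M := pw a (P j) * tc T * pw b (P j)⁻¹ with hM
    have h2 : (pw a (inc ℂ n j) * M * pw b (inc ℂ n j)ᵀ) i m =
        ∑ q, ∑ p, pw a (inc ℂ n j) i p * M p q * pw b (inc ℂ n j) m q := by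
      rw [Matrix.mul_apply]
      refine Finset.sum_congr rfl fun q _ => ?_
      rw [Matrix.mul_apply, Finset.sum_mul]
      rfl
    rw [h2]
    refine ⟨∑ q, ∑ p, pw a (inc ℂ n j) i p * w p q * pw b (inc ℂ n j) m q, ?_, ?_⟩
    · refine sum_mem fun q _ => sum_mem fun p _ => ?_
      rw [inc_entry, inc_entry]
      split_ifs
      · rw [one_mul, mul_one]
        exact hw p q
      · rw [mul_zero]
        exact zero_mem _
      · rw [zero_mul, zero_mul]
        exact zero_mem _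
      · rw [zero_mul, zero_mul]
        exact zero_mem _
    · rw [Finset.mul_sum]
      refine Finset.sum_congr rfl fun q _ => ?_
      rw [Finset.mul_sum]
      refine Finset.sum_congr rfl fun p _ => ?_
      rw [hw']
      ring⟩
  refine ⟨μ, ?_⟩
  have h3 := dpw_comm (a := a) (bd_inc X j)
  have h4 : pw b (inc ℂ n j)ᵀ * dpw b (blockDiagonal X) = dpw b (X j) * pw b (inc ℂ n j)ᵀ :=
    (dpw_comm (inc_bd X j).symm).symm
  have h5 : dpw a (blockDiagonal X) * tc T' - tc T' * dpw b (blockDiagonal X) =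
      pw a (inc ℂ n j) * (dpw a (X j) * tc T - tc T * dpw b (X j)) * pw b (inc ℂ n j)ᵀ := by
    rw [htc, Matrix.mul_sub, Matrix.sub_mul]
    congr 1
    · calc dpw a (blockDiagonal X) * (pw a (inc ℂ n j) * tc T * pw b (inc ℂ n j)ᵀ) =
          (dpw a (blockDiagonal X) * pw a (inc ℂ n j)) * tc T * pw b (inc ℂ n j)ᵀ := by
            simp only [Matrix.mul_assoc]
        _ = _ := by rw [h3]; simp only [Matrix.mul_assoc]
    · calc pw a (inc ℂ n j) * tc T * pw b (inc ℂ n j)ᵀ * dpw b (blockDiagonal X) =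
          pw a (inc ℂ n j) * tc T * (pw b (inc ℂ n j)ᵀ * dpw b (blockDiagonal X)) := by
            simp only [Matrix.mul_assoc]
        _ = _ := by rw [h4]; simp only [Matrix.mul_assoc]
  rw [h5, htc] at hμ
  have hl : ∀ A : Matrix (Fin a → Fin n) (Fin b → Fin n) ℂ,
      pw a (inc ℂ n j)ᵀ * (pw a (inc ℂ n j) * A * pw b (inc ℂ n j)ᵀ) * pw b (inc ℂ n j) = A := by
    intro A
    calc pw a (inc ℂ n j)ᵀ * (pw a (inc ℂ n j) * A * pw b (inc ℂ n j)ᵀ) * pw b (inc ℂ n j) =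
        (pw a (inc ℂ n j)ᵀ * pw a (inc ℂ n j)) * A * (pw b (inc ℂ n j)ᵀ * pw b (inc ℂ n j)) := by
          simp only [Matrix.mul_assoc]
      _ = A := by rw [pw_inc, pw_inc, Matrix.one_mul, Matrix.mul_one]
  have h6 := congrArg (fun M => pw a (inc ℂ n j)ᵀ * M * pw b (inc ℂ n j)) hμ
  rw [hl, Matrix.mul_smul, Matrix.smul_mul, hl] at h6
  exact h6

/-! ### the total codimension -/

/-- **the total codimension** -/
theorem total3 {β : Fin n × Fin n → Fin r → ℂ} {N : Matrix (Fin n) (Fin n) ℚ} {𝒩 : Set (Dir r n)}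
    {d0 a0 D0 : ℕ} {C : Matrix (Fin n) (Fin n) ℂ} {v : Fin k → Fin r → ℂ}
    {l : ℂ} {t : Fin k → ℂ} (hT : Trans3 β N 𝒩 d0 a0 D0 C v l t)
    (hP : ∀ j, (bt β (v j) * En (tc N) (-(l + t j)) * C).det ≠ 0)
    {T : Submodule ℂ (Matrix (Fin n) (Fin n) ℂ)} (hTT : Tg d0 C ⊔ Submodule.span ℂ {tc N} ≤ T) :
    ∑ j, (finrank ℂ ((Submodule.span ℂ (Prod.snd '' 𝒩 ∪ {tc N})).map (cj C)) -
        finrank ℂ ((Submodule.span ℂ (Prod.snd '' 𝒩 ∪ {tc N})).map (cj C) ⊓
          LieT D0 a0 (bt β (v j) * En (tc N) (-(l + t j)) * C) : Submodule ℂ _)) +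
      finrank ℂ (T.map (cj C) ⊓
        ⨅ j, LieT D0 a0 (bt β (v j) * En (tc N) (-(l + t j)) * C) : Submodule ℂ _) ≤
    finrank ℂ (T.map (cj C)) := by
  classical
  refine dim_ineq _ _ _ fun Y hY => ?_
  choose Y' hY' hYY using hY
  obtain ⟨Z, hZ, hmemZ⟩ := hT Y' hY'
  refine ⟨cj C Z, Submodule.mem_map_of_mem (hTT hZ), fun j => ?_⟩
  have h1 := lie_comp hP hmemZ j
  have h4 : Y j + cj C Z = C⁻¹ * (Y' j + Z) * C := by
    rw [← hYY j]
    show C⁻¹ * Y' j * C + C⁻¹ * Z * C = _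
    rw [Matrix.mul_add, Matrix.add_mul]
  rw [h4]
  exact h1

/-- scalars are in the intersection -/
theorem one_inf [NeZero n] {D0 a0 : ℕ} {C : Matrix (Fin n) (Fin n) ℂ} (hC : C.det ≠ 0)
    {T : Submodule ℂ (Matrix (Fin n) (Fin n) ℂ)} (hT : (1 : Matrix (Fin n) (Fin n) ℂ) ∈ T)
    (P : Fin k → Matrix (Fin n) (Fin n) ℂ) :
    1 ≤ finrank ℂ (T.map (cj C) ⊓ ⨅ j, LieT D0 a0 (P j) : Submodule ℂ _) := by
  have hu : IsUnit C.det := isUnit_iff_ne_zero.2 hC
  have h1 : (1 : Matrix (Fin n) (Fin n) ℂ) ∈ (T.map (cj C) ⊓ ⨅ j, LieT D0 a0 (P j) : Submodule ℂ _) := by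
    refine ⟨⟨1, hT, ?_⟩, ?_⟩
    · show C⁻¹ * 1 * C = 1
      rw [Matrix.mul_one, Matrix.nonsing_inv_mul _ hu]
    · rw [SetLike.mem_coe, Submodule.mem_iInf]
      exact fun j => one_mem_LieT _ _ _
  have h2 : (1 : Matrix (Fin n) (Fin n) ℂ) ≠ 0 := one_ne_zero
  have h3 : Nontrivial (T.map (cj C) ⊓ ⨅ j, LieT D0 a0 (P j) : Submodule ℂ _) :=
    ⟨⟨⟨1, h1⟩, 0, fun h => h2 (congrArg Subtype.val h)⟩⟩
  exact Module.finrank_pos

end Pool.Agent.T2h17.AH
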