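import Pool.Agent.T2h17.TV.Eng

/-!
The vectors of the values of a family of G-functions and the relative logarithms at the points of a window
are generic in bounded degree.
-/

set_option autoImplicit false
set_option maxHeartbeats 800000

open Matrix PowerSeries

namespace Pool.Agent.T2h17.AH

open Pool.Agent.Y916.Al (Ht evc)
open Pool.Agent.Y916.Af (NRh SZ Vc ptc IrrD ExcD)
open Pool.Agent.T2h17.HW (Gen Grp Ix pt Orb orb_irr)
open Pool.Agent.T2h17.TV (lw winL deg_aeval)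

variable {r k : ℕ}

/-- the matrix with the first row `v` and the other rows zero -/
def row (v : Fin r → ℂ) : Matrix (Fin r) (Fin r) ℂ :=
  Matrix.of fun i j => if (i : ℕ) = 0 then v j else 0

theorem row_mul (v : Fin r → ℂ) (g : Matrix (Fin r) (Fin r) ℂ) : row v * g = row (v ᵥ* g) := by
  ext i j
  rw [Matrix.mul_apply]
  unfold row
  simp only [Matrix.of_apply]
  by_cases h : (i : ℕ) = 0
  · simp only [if_pos h]
    rfl
  · simp only [if_neg h, zero_mul, Finset.sum_const_zero]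

/-- the values of the functions -/
noncomputable def hv (h : Fin r → ℚ⟦X⟧) (z : ℂ) : Fin r → ℂ := fun i => evc z (h i)

/-- the relations are invariant under the group -/
def InvV (h : Fin r → ℚ⟦X⟧) (𝒩 : Set (Matrix (Fin r) (Fin r) ℂ)) (ρ : ℝ) : Prop :=
  ∀ R : MvPolynomial (Fin r) (Polynomial ℚ), MvPolynomial.aeval h R = 0 → ∀ z : ℂ, ‖z‖ < ρ →
    ∀ g ∈ Grp 𝒩, MvPolynomial.eval₂ (Polynomial.aeval z : Polynomial ℚ →ₐ[ℚ] ℂ).toRingHom
      (hv h z ᵥ* g) R = 0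

/-- the first row -/
def e0 : Fin r → Fin r × Fin r := fun s => (⟨0, s.pos⟩, s)

/-- the set of the points of the orbit -/
def YY (𝒩 : Set (Matrix (Fin r) (Fin r) ℂ)) (v : Fin k → Fin r → ℂ) :
    Set (Fin k × Option (Fin r) → ℂ) :=
  {y | ∀ j, (fun o => y (j, o)) ∈ {y : Option (Fin r) → ℂ | (fun s => y (some s)) ∈ Orb 𝒩 (row (v j)) e0}}

theorem yy_irr (𝒩 : Set (Matrix (Fin r) (Fin r) ℂ)) (v : Fin k → Fin r → ℂ) (d : ℕ) :
    IrrD d (YY 𝒩 v) :=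
  Pool.Agent.Y916.Af.prod_irrD _ fun _ => Pool.Agent.Y916.Af.opt_irrD _
    (Pool.Agent.Y916.Af.irrD_of_irr (orb_irr 𝒩 _ _) d)

/-- the point with given values and logarithms -/
def yp (v : Fin k → Fin r → ℂ) (t : Fin k → ℂ) : Fin k × Option (Fin r) → ℂ := fun b =>
  b.2.elim (t b.1) fun s => v b.1 s

theorem orb_row (v : Fin r → ℂ) (g : Matrix (Fin r) (Fin r) ℂ) :
    (fun a : Fin r => (row v * g) (e0 a).1 (e0 a).2) = v ᵥ* g := by
  funext a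
  rw [row_mul]
  show (if ((⟨0, a.pos⟩ : Fin r) : ℕ) = 0 then (v ᵥ* g) a else 0) = _
  rw [if_pos rfl]

theorem yp_mem {𝒩 : Set (Matrix (Fin r) (Fin r) ℂ)} {v : Fin k → Fin r → ℂ}
    {g : Fin k → Matrix (Fin r) (Fin r) ℂ} (hg : ∀ j, g j ∈ Grp 𝒩) (t : Fin k → ℂ) :
    yp (fun j => v j ᵥ* g j) t ∈ YY 𝒩 v :=
  fun j => ⟨g j, hg j, (orb_row (v j) (g j)).symm⟩

theorem yp_ptc (h : Fin r → ℚ⟦X⟧) (α ℓ : Fin k → ℂ) : ptc h α ℓ = yp (fun j => hv h (1 / α j)) ℓ := by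
  funext ⟨j, o⟩
  rcases o with _ | s <;> rfl

theorem yp_ptc_mem (𝒩 : Set (Matrix (Fin r) (Fin r) ℂ)) (h : Fin r → ℚ⟦X⟧)
    (α ℓ : Fin k → ℂ) : ptc h α ℓ ∈ YY 𝒩 fun j => hv h (1 / α j) := by
  have h1 := yp_mem (𝒩 := 𝒩) (v := fun j => hv h (1 / α j)) (g := fun _ => 1)
    (fun _ => (Grp 𝒩).one_mem) ℓ
  simp only [vecMul_one] at h1
  rwa [yp_ptc]

theorem yy_vc {𝒩 : Set (Matrix (Fin r) (Fin r) ℂ)} {h : Fin r → ℚ⟦X⟧} {ρ : ℝ}
    (hinv : InvV h 𝒩 ρ) {α : Fin k → ℂ} (hα : ∀ j, ‖1 / α j‖ < ρ) :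
    ∀ y ∈ YY 𝒩 (fun j => hv h (1 / α j)), ∀ j, (fun i => y (j, some i)) ∈ Vc h (1 / α j) := by
  intro y hy j
  obtain ⟨g, hg, h1⟩ := hy j
  have h2 : (fun i => y (j, some i)) = hv h (1 / α j) ᵥ* g := h1.trans (orb_row _ _)
  rw [h2]
  exact fun R hR => hinv R hR _ (hα j) g hg

/-- the substitution of the identity for the rational structure -/
noncomputable def sb : Ix r k → MvPolynomial (Fin k × Option (Fin r)) ℚ :=
  Sum.elim (fun a => MvPolynomial.C ((1 : Matrix (Fin r) (Fin r) ℚ) a.1 a.2))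
    (fun b => b.2.elim (MvPolynomial.X (b.1, none)) fun a =>
      if (a.1 : ℕ) = 0 then MvPolynomial.X (b.1, some a.2) else 0)

theorem sb_deg (i : Ix r k) : (sb i).totalDegree ≤ 1 := by
  rcases i with a | ⟨j, _ | a⟩
  · show (MvPolynomial.C ((1 : Matrix (Fin r) (Fin r) ℚ) a.1 a.2) :
      MvPolynomial (Fin k × Option (Fin r)) ℚ).totalDegree ≤ 1
    rw [MvPolynomial.totalDegree_C]
    omega
  · exact (MvPolynomial.totalDegree_X _).le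
  · show (if (a.1 : ℕ) = 0 then (MvPolynomial.X (j, some a.2) : MvPolynomial (Fin k × Option (Fin r)) ℚ)
      else 0).totalDegree ≤ 1
    split_ifs
    · exact (MvPolynomial.totalDegree_X _).le
    · rw [MvPolynomial.totalDegree_zero]
      omega

theorem sb_eval (P : MvPolynomial (Ix r k) ℚ) (v : Fin k → Fin r → ℂ) (t : Fin k → ℂ) :
    MvPolynomial.aeval (yp v t) (MvPolynomial.aeval sb P) =
      MvPolynomial.aeval (pt 1 (fun j => row (v j)) t) P := by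
  have h1 : (MvPolynomial.aeval (yp v t) : MvPolynomial (Fin k × Option (Fin r)) ℚ →ₐ[ℚ]
      ℂ).comp (MvPolynomial.aeval sb) = MvPolynomial.aeval (pt 1 (fun j => row (v j)) t) := by
    refine MvPolynomial.algHom_ext fun i => ?_
    rw [AlgHom.comp_apply, MvPolynomial.aeval_X, MvPolynomial.aeval_X]
    rcases i with a | ⟨j, _ | a⟩
    · show MvPolynomial.aeval (yp v t) (MvPolynomial.C ((1 : Matrix (Fin r) (Fin r) ℚ) a.1 a.2)) =
        (1 : Matrix (Fin r) (Fin r) ℂ) a.1 a.2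
      rw [MvPolynomial.aeval_C, Matrix.one_apply, Matrix.one_apply]
      split_ifs <;> simp
    · show MvPolynomial.aeval (yp v t) (MvPolynomial.X (j, none)) = _
      rw [MvPolynomial.aeval_X]
      rfl
    · show MvPolynomial.aeval (yp v t) (if (a.1 : ℕ) = 0 then MvPolynomial.X (j, some a.2) else 0) =
        if (a.1 : ℕ) = 0 then v j a.2 else 0
      split_ifs
      · rw [MvPolynomial.aeval_X]
        rfl
      · rw [map_zero]
  exact DFunLike.congr_fun h1 P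

/-- **relations at the points of a window** -/
theorem win_relv {h : Fin r → ℚ⟦X⟧} (hnr : NRh h)
    {𝒩 : Set (Matrix (Fin r) (Fin r) ℂ)} {ρ : ℝ} (hρ : 0 < ρ) (hinv : InvV h 𝒩 ρ) :
    ∃ G0 : ℕ, 1 ≤ G0 ∧ ∀ G : ℕ, G0 ≤ G → ∀ k m A d : ℕ, ∃ E : ℕ, ∀ (W : ℕ) (ξ : ℂ),
      ((W : ℝ) + 2) ^ E ≤ ‖ξ‖ →
      (∀ u ≤ W, ‖1 / (ξ - ((G * u : ℕ) : ℂ))‖ < ρ ∧ ξ - ((G * u : ℕ) : ℂ) ≠ 0) ∧ (Ht m A ξ →
      ∀ u : Fin k → ℕ, Function.Injective u → (∀ j, 1 ≤ u j ∧ u j ≤ W) →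
      Gen 𝒩 d 1 (fun j => row (hv h (1 / (ξ - ((G * u j : ℕ) : ℂ))))) (lw G ξ u)) := by
  classical
  obtain ⟨G0, hG0, hwin⟩ := winL hnr
  refine ⟨G0, hG0, fun G hG k m A d => ?_⟩
  obtain ⟨δ₁, Ex, hE⟩ := hwin G hG k m d A
  obtain ⟨B, hB⟩ := exists_nat_gt (1 / ρ)
  refine ⟨Ex + G + 1 + B + 1, fun W ξ hξ => ?_⟩
  have hW0 : (0 : ℝ) ≤ W := Nat.cast_nonneg W
  have hW2 : (2 : ℝ) ≤ (W : ℝ) + 2 := by linarith
  have hW1 : (1 : ℝ) ≤ (W : ℝ) + 2 := by linarith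
  have h2n : ∀ a : ℕ, (a : ℝ) + 1 ≤ ((W : ℝ) + 2) ^ a := fun a => by
    refine le_trans ?_ (pow_le_pow_left₀ (by norm_num) hW2 a)
    exact_mod_cast Nat.lt_two_pow_self (n := a)
  have hbig : ((W : ℝ) + 2) ^ Ex ≤ ‖ξ‖ := (pow_le_pow_right₀ hW1 (by omega)).trans hξ
  have hsep : (G : ℝ) * W + (B + 1) ≤ ‖ξ‖ := by
    refine le_trans ?_ ((pow_le_pow_right₀ hW1 (show G + 1 + B + 1 ≤ Ex + G + 1 + B + 1 by omega)).trans hξ)
    have h1 := h2n G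
    have h2 := h2n B
    have h3 : (G : ℝ) * W + 1 ≤ ((W : ℝ) + 2) ^ (G + 1) := by
      rw [pow_succ]
      have hG' : (0 : ℝ) ≤ G := Nat.cast_nonneg G
      nlinarith
    have h4 : (1 : ℝ) ≤ ((W : ℝ) + 2) ^ (G + 1) := one_le_pow₀ hW1
    have h5 : (1 : ℝ) ≤ ((W : ℝ) + 2) ^ B := one_le_pow₀ hW1
    have h6 : ((W : ℝ) + 2) ^ (G + 1 + B + 1) = ((W : ℝ) + 2) ^ (G + 1) * ((W : ℝ) + 2) ^ B * ((W : ℝ) + 2) := by
      rw [pow_succ, pow_add]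
    rw [h6]
    have h7 : (G : ℝ) * W + 1 + (B + 1) ≤ 2 * (((W : ℝ) + 2) ^ (G + 1) * ((W : ℝ) + 2) ^ B) := by
      nlinarith [mul_nonneg (sub_nonneg.2 h4) (sub_nonneg.2 h5)]
    have h8 : 0 ≤ ((W : ℝ) + 2) ^ (G + 1) * ((W : ℝ) + 2) ^ B := by positivity
    nlinarith
  have hlow : ∀ u ≤ W, (B : ℝ) + 1 ≤ ‖ξ - ((G * u : ℕ) : ℂ)‖ := by
    intro u hu
    have h1 := norm_sub_norm_le ξ ((G * u : ℕ) : ℂ)
    rw [Complex.norm_natCast] at h1
    have h2 : ((G * u : ℕ) : ℝ) ≤ G * W := by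
      push_cast
      exact mul_le_mul_of_nonneg_left (by exact_mod_cast hu) (Nat.cast_nonneg G)
    linarith
  have hnear : ∀ u ≤ W, ‖1 / (ξ - ((G * u : ℕ) : ℂ))‖ < ρ ∧ ξ - ((G * u : ℕ) : ℂ) ≠ 0 := by
    intro u hu
    have h1 := hlow u hu
    have hB0 : (0 : ℝ) ≤ B := Nat.cast_nonneg B
    have h2 : 0 < ‖ξ - ((G * u : ℕ) : ℂ)‖ := by linarith
    refine ⟨?_, norm_pos_iff.1 h2⟩
    rw [norm_div, norm_one, div_lt_comm₀ h2 hρ]
    linarith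
  refine ⟨hnear, fun hHt u hu hub P hPd hP0 g hg t => ?_⟩
  set α : Fin k → ℂ := fun j => ξ - ((G * u j : ℕ) : ℂ) with hα
  have h1 := hE W ξ hbig hHt u hu hub (YY 𝒩 fun j => hv h (1 / α j)) (yy_irr 𝒩 _ δ₁)
    (yp_ptc_mem 𝒩 h α _) (yy_vc hinv fun j => (hnear (u j) (hub j).2).1)
    (MvPolynomial.aeval sb P) ((deg_aeval _ sb_deg P).trans hPd) (by
      have h2 := yp_ptc h α (lw G ξ u)
      rw [h2, sb_eval]
      exact hP0) _ (yp_mem hg t)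
  rw [sb_eval] at h1
  simp only [row_mul]
  exact h1

end Pool.Agent.T2h17.AH
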