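import Pool.Agent.T2h17.AH.Ten
import Pool.Agent.T2h17.AH.Eng
import Pool.Agent.T2h17.TV.Tg
import Pool.Agent.T2h17.HW.Core

/-!
Transversality for the tensors which are rational in the flat coordinates and algebraic in the coordinates
of de Rham cohomology.
-/

set_option autoImplicit false
set_option maxHeartbeats 800000

open Matrix Filter

namespace Pool.Agent.T2h17.AH

open Pool.Agent.Y118.UL (U mk mk_eq mk_eq_zero mk_surj ev_ge qc_mk algebraMap_eq alg_of_degree)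
open Pool.Agent.T2h17.HW (gm gm_apply gm_mul gm_sub gm_add gm_smul gm_one gm_sum gm_ext der_rat exists_der
  En Grp Ix pt Gen vt tangent tc tc_mul gm_En der_En En_comm)
open Pool.Agent.T2h17.TV (Tg ev_Tg)

/-! ### algebraic numbers and derivations -/

theorem der_alg (D : Derivation (U ℚ) (U ℂ) (U ℂ)) {x : U ℂ} (hx : IsAlgebraic (U ℚ) x) : D x = 0 := by
  have h1 := (minpoly.irreducible hx.isIntegral).separable
  have h2 : Polynomial.aeval x (Polynomial.derivative (minpoly (U ℚ) x)) ≠ 0 :=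
    h1.aeval_derivative_ne_zero (minpoly.aeval _ _)
  have h3 := Derivation.map_aeval D (minpoly (U ℚ) x) x
  rw [minpoly.aeval, map_zero, smul_eq_mul] at h3
  exact (mul_eq_zero.1 h3.symm).resolve_left h2

theorem der_deg (D : Derivation (U ℚ) (U ℂ) (U ℂ)) {D0 : ℕ} (K : ℕ → IntermediateField ℚ ℂ)
    (hf : ∀ n, FiniteDimensional ℚ (K n)) (hd : ∀ n, Module.finrank ℚ (K n) ≤ D0) (c : ℕ → ℂ)
    (hc : ∀ n, c n ∈ K n) : D (mk ℂ c) = 0 := der_alg D (alg_of_degree K hf hd c hc)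

theorem der_const (D : Derivation (U ℚ) (U ℂ) (U ℂ)) {c : ℂ} (hc : IsAlgebraic ℚ c) :
    D (mk ℂ fun _ => c) = 0 := by
  have := IntermediateField.adjoin.finiteDimensional hc.isIntegral
  exact der_deg D (fun _ => IntermediateField.adjoin ℚ {c}) (fun _ => this) (fun _ => le_rfl) _
    fun _ => IntermediateField.mem_adjoin_simple_self ℚ c

/-! ### germs of tensors -/

theorem gm_tp {α β : Type} {a : ℕ} (A : ℕ → Fin a → Matrix α β ℂ) :
    gm (fun d => tp (A d)) = tp fun s => gm fun d => A d s := by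
  ext i m
  rw [gm_apply, tp_apply]
  simp only [tp_apply, gm_apply, ← map_prod]
  congr 1
  funext d
  rw [Finset.prod_apply]

theorem gm_pw {α β : Type} (a : ℕ) (A : ℕ → Matrix α β ℂ) : gm (fun d => pw a (A d)) = pw a (gm A) :=
  gm_tp _

theorem gm_dpw {α : Type} [DecidableEq α] (a : ℕ) (A : ℕ → Matrix α α ℂ) :
    gm (fun d => dpw a (A d)) = dpw a (gm A) := by
  unfold dpw
  rw [gm_sum]
  refine Finset.sum_congr rfl fun s _ => ?_
  rw [gm_tp]
  congr 1
  funext s'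
  by_cases h : s' = s
  · subst h
    simp only [Function.update_self]
  · simp only [Function.update_of_ne h]
    exact gm_one

/-! ### tensors -/

section tensors
variable {ι : Type} [Fintype ι] [DecidableEq ι]

/-- the rational tensor `T` is algebraic in de Rham cohomology up to a factor -/
def AlgT (D0 : ℕ) (P : Matrix ι ι ℂ) {a b : ℕ} (T : Matrix (Fin a → ι) (Fin b → ι) ℚ) : Prop :=
  ∃ (K : IntermediateField ℚ ℂ) (κ : ℂ), FiniteDimensional ℚ K ∧ Module.finrank ℚ K ≤ D0 ∧ κ ≠ 0 ∧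
    ∀ i m, ∃ w ∈ K, (pw a P * tc T * pw b P⁻¹) i m = κ * w

/-- the operators which preserve the line of the tensor `T` -/
def Pres {a b : ℕ} (T : Matrix (Fin a → ι) (Fin b → ι) ℚ) (X : Matrix ι ι ℂ) : Prop :=
  ∃ μ : ℂ, dpw a X * tc T - tc T * dpw b X = μ • tc T

/-- the operators which preserve the lines of all algebraic tensors -/
def LieT (D0 a0 : ℕ) (P : Matrix ι ι ℂ) : Submodule ℂ (Matrix ι ι ℂ) where
  carrier := {X | ∀ a ≤ a0, ∀ b ≤ a0, ∀ T : Matrix (Fin a → ι) (Fin b → ι) ℚ, AlgT D0 P T → Pres T X}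
  add_mem' := by
    intro X Y hX hY a ha b hb T hT
    obtain ⟨μ, h1⟩ := hX a ha b hb T hT
    obtain ⟨ν, h2⟩ := hY a ha b hb T hT
    refine ⟨μ + ν, ?_⟩
    rw [dpw_add, dpw_add, Matrix.add_mul, Matrix.mul_add, add_smul, ← h1, ← h2]
    abel
  zero_mem' := by
    intro a ha b hb T hT
    refine ⟨0, ?_⟩
    rw [dpw_zero, dpw_zero, Matrix.zero_mul, Matrix.mul_zero, sub_zero, zero_smul]
  smul_mem' := by
    intro c X hX a ha b hb T hT
    obtain ⟨μ, h1⟩ := hX a ha b hb T hT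
    refine ⟨c * μ, ?_⟩
    rw [dpw_smul, dpw_smul, Matrix.smul_mul, Matrix.mul_smul, mul_smul, ← h1, smul_sub]

theorem one_mem_LieT (D0 a0 : ℕ) (P : Matrix ι ι ℂ) : (1 : Matrix ι ι ℂ) ∈ LieT D0 a0 P := by
  intro a ha b hb T hT
  refine ⟨(a : ℂ) - b, ?_⟩
  rw [dpw_one, dpw_one, Matrix.smul_mul, Matrix.mul_smul, Matrix.one_mul, Matrix.mul_one, sub_smul]

end tensors

/-! ### the period matrices -/

/-- the matrix with the entries `∑ β y` -/
def bt {r n : ℕ} (β : Fin n × Fin n → Fin r → ℂ) (y : Fin r → ℂ) : Matrix (Fin n) (Fin n) ℂ :=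
  Matrix.of fun i j => ∑ s, β (i, j) s * y s

/-- the directions of the one-parameter groups, in both representations -/
abbrev Dir (r n : ℕ) : Type := Matrix (Fin r) (Fin r) ℂ × Matrix (Fin n) (Fin n) ℂ

theorem bt_add {r n : ℕ} (β : Fin n × Fin n → Fin r → ℂ) (y z : Fin r → ℂ) :
    bt β (y + z) = bt β y + bt β z := by
  ext i j
  simp only [bt, Matrix.of_apply, Matrix.add_apply, Pi.add_apply, mul_add, Finset.sum_add_distrib]

theorem bt_smul {r n : ℕ} (β : Fin n × Fin n → Fin r → ℂ) (c : ℂ) (y : Fin r → ℂ) :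
    bt β (c • y) = c • bt β y := by
  ext i j
  simp only [bt, Matrix.of_apply, Matrix.smul_apply, Pi.smul_apply, smul_eq_mul, Finset.mul_sum]
  exact Finset.sum_congr rfl fun s _ => by ring

theorem bt_zero {r n : ℕ} (β : Fin n × Fin n → Fin r → ℂ) : bt β 0 = 0 := by
  have h := bt_smul β 0 0
  rwa [zero_smul, zero_smul] at h

/-- directions in the large representation -/
theorem lift_span {r n : ℕ} {β : Fin n × Fin n → Fin r → ℂ} {𝒩 : Set (Dir r n)}
    (heq : ∀ X ∈ 𝒩, ∀ y, bt β (y ᵥ* X.1) = bt β y * X.2) {W : Matrix (Fin n) (Fin n) ℂ}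
    (hW : W ∈ Submodule.span ℂ (Prod.snd '' 𝒩)) :
    ∃ V ∈ Submodule.span ℂ (Prod.fst '' 𝒩), ∀ y, bt β (y ᵥ* V) = bt β y * W := by
  induction hW using Submodule.span_induction with
  | mem W h =>
    obtain ⟨X, hX, rfl⟩ := h
    exact ⟨X.1, Submodule.subset_span ⟨X, hX, rfl⟩, heq X hX⟩
  | zero =>
    refine ⟨0, Submodule.zero_mem _, fun y => ?_⟩
    rw [vecMul_zero, bt_zero, Matrix.mul_zero]
  | add A B _ _ hA hB =>
    obtain ⟨V, hV, h1⟩ := hA
    obtain ⟨V', hV', h2⟩ := hB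
    refine ⟨V + V', Submodule.add_mem _ hV hV', fun y => ?_⟩
    rw [vecMul_add, bt_add, h1, h2, Matrix.mul_add]
  | smul c A _ hA =>
    obtain ⟨V, hV, h1⟩ := hA
    refine ⟨c • V, Submodule.smul_mem _ _ hV, fun y => ?_⟩
    rw [vecMul_smul, bt_smul, h1, Matrix.mul_smul]

/-- a bad example in degree `d` -/
structure Bad3 {n k r : ℕ} (β : Fin n × Fin n → Fin r → ℂ) (N : Matrix (Fin n) (Fin n) ℚ)
    (𝒩 : Set (Dir r n)) (d0 a0 D0 d : ℕ) : Type where
  C : Matrix (Fin n) (Fin n) ℂ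
  v : Fin k → Fin r → ℂ
  l : ℂ
  t : Fin k → ℂ
  W : Fin k → Matrix (Fin n) (Fin n) ℂ
  μ : Fin k → ℂ
  hC : C.det ≠ 0
  hh : ∀ j, (bt β (v j)).det ≠ 0
  hG : Gen (Prod.fst '' 𝒩) d 1 (fun j => row (v j)) t
  hW : ∀ j, W j ∈ Submodule.span ℂ (Prod.snd '' 𝒩)
  hnot : ∀ Z ∈ Tg d0 C, ∀ c : ℂ,
    (blockDiagonal fun j => C⁻¹ * (W j + μ j • tc N + Z + c • tc N) * C) ∉
      LieT D0 a0 (blockDiagonal fun j => bt β (v j) * En (tc N) (-(l + t j)) * C)

theorem no_bad3 {n k r : ℕ} {β : Fin n × Fin n → Fin r → ℂ} (hβ : ∀ a s, IsAlgebraic ℚ (β a s))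
    {N : Matrix (Fin n) (Fin n) ℚ} (hN : N ^ n = 0) {𝒩 : Set (Dir r n)}
    (hn : ∀ X ∈ 𝒩, X.1 ^ r = 0) (heq : ∀ X ∈ 𝒩, ∀ y, bt β (y ᵥ* X.1) = bt β y * X.2)
    (hconj : ∀ X ∈ Submodule.span ℂ (Prod.snd '' 𝒩), ∀ s,
      En (tc N) s * X * En (tc N) (-s) ∈ Submodule.span ℂ (Prod.snd '' 𝒩))
    (hE : ∀ s, En (tc N) s * En (tc N) (-s) = 1)
    {d0 a0 D0 : ℕ} (b : ∀ d : ℕ, Bad3 (k := k) β N 𝒩 d0 a0 D0 d) : False := by
  classical
  -- the logarithms and the period matrices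
  set l : ℕ → Fin k → ℂ := fun d j => (b d).l + (b d).t j with hldef
  set P : ℕ → Fin k → Matrix (Fin n) (Fin n) ℂ := fun d j =>
    bt β ((b d).v j) * En (tc N) (-l d j) * (b d).C with hPdef
  have hdetE : ∀ s, (En (tc N) s).det ≠ 0 := by
    intro s h0
    have h1 := congrArg Matrix.det (hE s)
    rw [Matrix.det_mul, h0, zero_mul, Matrix.det_one] at h1
    exact zero_ne_one h1
  have hdetP : ∀ d j, IsUnit (P d j).det := by
    intro d j
    rw [isUnit_iff_ne_zero]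
    simp only [hPdef, Matrix.det_mul]
    exact mul_ne_zero (mul_ne_zero ((b d).hh j) (hdetE _)) (b d).hC
  -- the derivation
  set W' : ℕ → Fin k → Matrix (Fin n) (Fin n) ℂ := fun d j =>
    En (tc N) (-l d j) * (b d).W j * En (tc N) (l d j) with hW'
  have hWm : ∀ d j, W' d j ∈ Submodule.span ℂ (Prod.snd '' 𝒩) := by
    intro d j
    have h1 := hconj _ ((b d).hW j) (-l d j)
    rwa [neg_neg] at h1
  choose V hV hVW using fun d j => lift_span heq (hWm d j)
  have hn' : ∀ X ∈ Prod.fst '' 𝒩, X ^ r = 0 := by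
    rintro _ ⟨X, hX, rfl⟩
    exact hn X hX
  obtain ⟨D, hD⟩ := exists_der (fun d => pt 1 (fun j => row ((b d).v j)) (b d).t)
    (fun d => vt (fun j => row ((b d).v j)) (V d) fun j => -(b d).μ j)
    (fun d Q hQ hQ0 => tangent hn' (b d).hG hQ hQ0 (hV d) _)
  -- the unknown derivatives
  obtain ⟨e, he⟩ := mk_surj (D (mk ℂ fun d => (b d).l))
  have hCu : ∀ d, IsUnit (b d).C.det := fun d => isUnit_iff_ne_zero.2 (b d).hC
  have hC'C : (gm fun d => (b d).C⁻¹) * (gm fun d => (b d).C) = 1 := by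
    rw [← gm_mul, ← gm_one]
    congr 1
    funext d
    exact Matrix.nonsing_inv_mul _ (hCu d)
  obtain ⟨Z, hZ⟩ : ∃ Z : ℕ → Matrix (Fin n) (Fin n) ℂ,
      gm Z = (gm fun d => (b d).C).map D * gm fun d => (b d).C⁻¹ := by
    choose z hz using fun a : Fin n × Fin n =>
      mk_surj (((gm fun d => (b d).C).map D * gm fun d => (b d).C⁻¹) a.1 a.2)
    refine ⟨fun d => Matrix.of fun i j => z (i, j) d, ?_⟩
    ext i j
    rw [gm_apply]
    exact hz (i, j)
  have hDC : (gm fun d => (b d).C).map D = gm Z * gm fun d => (b d).C := by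
    rw [hZ, Matrix.mul_assoc, hC'C, Matrix.mul_one]
  have hZT := ev_Tg D d0 (fun d => (b d).C) Z hDC
  have hDl : ∀ j, D (mk ℂ fun d => -l d j) = mk ℂ fun d => (b d).μ j - e d := by
    intro j
    have h1 : D (mk ℂ fun d => (b d).t j) = mk ℂ fun d => -(b d).μ j := hD (Sum.inr (j, none))
    have h2 : mk ℂ (fun d => -l d j) = -(mk ℂ (fun d => (b d).l) + mk ℂ (fun d => (b d).t j)) := by
      rw [← map_add, ← map_neg]
      rfl
    have h3 : mk ℂ (fun d => (b d).μ j - e d) =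
        -(mk ℂ e + mk ℂ (fun d => -(b d).μ j)) := by
      rw [← map_add, ← map_neg]
      congr 1
      funext d
      show (b d).μ j - e d = -(e d + -(b d).μ j)
      ring
    rw [h2, map_neg, map_add, h1, ← he, h3]
  have hDv : ∀ j s, D (mk ℂ fun d => (b d).v j s) = mk ℂ fun d => ((b d).v j ᵥ* V d j) s := by
    intro j s
    have h1 := hD (Sum.inr (j, some (⟨0, s.pos⟩, s)))
    have h2 : (fun d => pt (1 : Matrix (Fin r) (Fin r) ℂ) (fun j => row ((b d).v j)) (b d).t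
        (Sum.inr (j, some (⟨0, s.pos⟩, s)))) = fun d => (b d).v j s := by
      funext d
      show (if ((⟨0, s.pos⟩ : Fin r) : ℕ) = 0 then (b d).v j s else 0) = _
      rw [if_pos rfl]
    have h3 : (fun d => vt (fun j => row ((b d).v j)) (V d) (fun j => -(b d).μ j)
        (Sum.inr (j, some (⟨0, s.pos⟩, s)))) = fun d => ((b d).v j ᵥ* V d j) s := by
      funext d
      show (row ((b d).v j) * V d j) ⟨0, s.pos⟩ s = _
      rw [row_mul]
      show (if ((⟨0, s.pos⟩ : Fin r) : ℕ) = 0 then ((b d).v j ᵥ* V d j) s else 0) = _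
      rw [if_pos rfl]
    rw [h2, h3] at h1
    exact h1
  have hDh : ∀ j, (gm fun d => bt β ((b d).v j)).map D = gm fun d => bt β ((b d).v j) * W' d j := by
    intro j
    ext a c
    rw [Matrix.map_apply, gm_apply, gm_apply]
    have h1 : (fun d => bt β ((b d).v j) a c) = ∑ s, (fun _ : ℕ => β (a, c) s) * fun d => (b d).v j s := by
      funext d
      rw [Finset.sum_apply]
      rfl
    have h2 : (fun d => (bt β ((b d).v j) * W' d j) a c) =
        ∑ s, (fun _ : ℕ => β (a, c) s) * fun d => ((b d).v j ᵥ* V d j) s := by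
      funext d
      rw [← hVW, Finset.sum_apply]
      rfl
    rw [h1, h2, map_sum, map_sum, map_sum]
    refine Finset.sum_congr rfl fun s _ => ?_
    rw [map_mul (mk ℂ), map_mul (mk ℂ), Derivation.leibniz, der_const D (hβ (a, c) s), smul_zero,
      add_zero, hDv, smul_eq_mul]
  set Y : ℕ → Fin k → Matrix (Fin n) (Fin n) ℂ := fun d j =>
    (b d).C⁻¹ * ((b d).W j + (b d).μ j • tc N + Z d + (-e d) • tc N) * (b d).C with hY
  have hDP : ∀ j, (gm fun d => P d j).map D = gm fun d => P d j * Y d j := by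
    intro j
    have h1 : (gm fun d => P d j) = gm (fun d => bt β ((b d).v j)) *
        En (gm fun _ => tc N) (mk ℂ fun d => -l d j) * gm (fun d => (b d).C) := by
      rw [← gm_En, ← gm_mul, ← gm_mul]
    rw [h1, Pool.Agent.T2h17.HW.map_D_mul, Pool.Agent.T2h17.HW.map_D_mul, hDC, hDh, der_En hN, hDl,
      ← gm_En]
    have e1 : (gm fun _ => tc N) * gm (fun d => En (tc N) (-l d j)) =
        gm fun d => tc N * En (tc N) (-l d j) := (gm_mul _ _).symm
    rw [e1, ← gm_smul (fun d => (b d).μ j - e d), ← gm_mul, ← gm_mul, ← gm_add, ← gm_mul, ← gm_mul,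
      ← gm_mul, ← gm_mul, ← gm_add]
    congr 1
    funext d
    have h3 : P d j * Y d j = bt β ((b d).v j) * (En (tc N) (-l d j) *
        ((b d).W j + (b d).μ j • tc N + Z d + (-e d) • tc N) * (b d).C) := by
      have h4 : (b d).C * (b d).C⁻¹ = 1 := Matrix.mul_nonsing_inv _ (hCu d)
      simp only [hPdef, hY]
      calc bt β ((b d).v j) * En (tc N) (-l d j) * (b d).C * ((b d).C⁻¹ *
            ((b d).W j + (b d).μ j • tc N + Z d + (-e d) • tc N) * (b d).C) =
          bt β ((b d).v j) * En (tc N) (-l d j) * ((b d).C * (b d).C⁻¹) *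
            ((b d).W j + (b d).μ j • tc N + Z d + (-e d) • tc N) * (b d).C := by
            simp only [Matrix.mul_assoc]
        _ = _ := by
            rw [h4, Matrix.mul_one]
            simp only [Matrix.mul_assoc]
    rw [h3]
    have h4 : bt β ((b d).v j) * W' d j * En (tc N) (-l d j) =
        bt β ((b d).v j) * (En (tc N) (-l d j) * (b d).W j) := by
      simp only [hW']
      rw [Matrix.mul_assoc, Matrix.mul_assoc, hE (l d j), Matrix.mul_one]
    rw [h4, Matrix.mul_smul, En_comm]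
    simp only [Matrix.mul_add, Matrix.add_mul, Matrix.mul_smul, Matrix.smul_mul, Matrix.mul_assoc]
    module
  -- the matrices of all points
  set BP : ℕ → Matrix (Fin n × Fin k) (Fin n × Fin k) ℂ := fun d => blockDiagonal (P d) with hBP
  set BY : ℕ → Matrix (Fin n × Fin k) (Fin n × Fin k) ℂ := fun d => blockDiagonal (Y d) with hBY
  have hBPu : ∀ d, IsUnit (BP d).det := by
    intro d
    rw [hBP, det_blockDiagonal, isUnit_iff_ne_zero, Finset.prod_ne_zero_iff]
    exact fun j _ => (hdetP d j).ne_zero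
  have hDBP : (gm BP).map D = gm BP * gm BY := by
    rw [← gm_mul]
    ext ⟨a, j⟩ ⟨c, j'⟩
    have h0 : ∀ d, BP d * BY d = blockDiagonal fun j => P d j * Y d j := fun d =>
      (blockDiagonal_mul _ _).symm
    simp only [h0]
    rw [Matrix.map_apply, gm_apply, gm_apply]
    simp only [hBP, blockDiagonal_apply]
    by_cases hj : j = j'
    · simp only [if_pos hj]
      have h1 := congrFun (congrFun (hDP j) a) c
      rw [Matrix.map_apply, gm_apply, gm_apply] at h1
      exact h1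
    · simp only [if_neg hj]
      have h1 : mk ℂ (fun _ => (0 : ℂ)) = 0 := map_zero (mk ℂ)
      rw [h1, map_zero]
  have hPP' : gm BP * gm (fun d => (BP d)⁻¹) = 1 := by
    rw [← gm_mul, ← gm_one]
    congr 1
    funext d
    exact Matrix.mul_nonsing_inv _ (hBPu d)
  have hP'P : gm (fun d => (BP d)⁻¹) * gm BP = 1 := by
    rw [← gm_mul, ← gm_one]
    congr 1
    funext d
    exact Matrix.nonsing_inv_mul _ (hBPu d)
  -- the bad tensors
  set Q : Fin (a0 + 1) × Fin (a0 + 1) → ℕ → Prop := fun q d =>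
    ∃ T : Matrix (Fin (q.1 : ℕ) → Fin n × Fin k) (Fin (q.2 : ℕ) → Fin n × Fin k) ℚ,
      AlgT D0 (BP d) T ∧ ¬ Pres T (BY d) with hQ
  have hex : ∀ᶠ d in (hyperfilter ℕ : Filter ℕ), ∃ q, Q q d := by
    refine hZT.mono fun d hd => ?_
    have h1 : BY d ∉ LieT D0 a0 (BP d) := (b d).hnot (Z d) hd (-e d)
    have h2 : ¬ ∀ a ≤ a0, ∀ b ≤ a0, ∀ T : Matrix (Fin a → Fin n × Fin k) (Fin b → Fin n × Fin k) ℚ,
      AlgT D0 (BP d) T → Pres T (BY d) := h1
    push Not at h2
    obtain ⟨a, ha, c, hc, T, hT, hp⟩ := h2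
    exact ⟨(⟨a, Nat.lt_succ_of_le ha⟩, ⟨c, Nat.lt_succ_of_le hc⟩), T, hT, hp⟩
  obtain ⟨q, hq⟩ : ∃ q, ∀ᶠ d in (hyperfilter ℕ : Filter ℕ), Q q d := by
    by_contra hcon
    push Not at hcon
    have h2 := eventually_all.2 hcon
    obtain ⟨d, hd1, q, hd2⟩ := (h2.and hex).exists
    exact hd1 q hd2
  obtain ⟨a, c⟩ := q
  -- the choice of the tensors
  have hD0 : 1 ≤ D0 := by
    obtain ⟨d, T, ⟨K, κ, hK1, hK2, -⟩, -⟩ := hq.exists
    exact Module.finrank_pos.trans_le hK2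
  have hch : ∀ d, ∃ (T : Matrix (Fin (a : ℕ) → Fin n × Fin k) (Fin (c : ℕ) → Fin n × Fin k) ℚ)
      (K : IntermediateField ℚ ℂ) (κ : ℂ)
      (w : Matrix (Fin (a : ℕ) → Fin n × Fin k) (Fin (c : ℕ) → Fin n × Fin k) ℂ),
      FiniteDimensional ℚ K ∧ Module.finrank ℚ K ≤ D0 ∧ κ ≠ 0 ∧ (∀ i m, w i m ∈ K) ∧
      pw a (BP d) * tc T * pw c (BP d)⁻¹ = κ • w ∧ (Q (a, c) d → ¬ Pres T (BY d)) := by
    intro d
    by_cases hd : Q (a, c) d
    · obtain ⟨T, ⟨K, κ, h1, h2, h3, h4⟩, h5⟩ := hd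
      choose w hw hw' using h4
      refine ⟨T, K, κ, Matrix.of w, h1, h2, h3, hw, ?_, fun _ => h5⟩
      ext i m
      rw [Matrix.smul_apply, smul_eq_mul]
      exact hw' i m
    · refine ⟨0, ⊥, 1, 0, inferInstance, ?_, one_ne_zero, fun i m => ?_, ?_, fun h => absurd h hd⟩
      · rw [IntermediateField.finrank_bot]
        exact hD0
      · rw [Matrix.zero_apply]
        exact zero_mem _
      · have h1 : tc (0 : Matrix (Fin (a : ℕ) → Fin n × Fin k) (Fin (c : ℕ) → Fin n × Fin k) ℚ) = 0 := by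
          ext i j
          simp [tc]
        rw [h1, Matrix.mul_zero, Matrix.zero_mul, smul_zero]
  choose T K κ w hK1 hK2 hκ hw hT hTn using hch
  have hκ0 : mk ℂ κ ≠ 0 := by
    intro h0
    rw [mk_eq_zero] at h0
    obtain ⟨d, hd⟩ := h0.exists
    exact hκ d hd
  have h1 := ten_der D hPP' hP'P hDBP (T := gm fun d => tc (T d)) (by
      ext i m
      rw [Matrix.map_apply, Matrix.zero_apply]
      exact der_rat D fun d => T d i m) hκ0 (w := gm w) (by
      ext i m
      rw [Matrix.map_apply, Matrix.zero_apply]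
      exact der_deg D K hK1 hK2 _ fun d => hw d i m) (by
      rw [← gm_pw, ← gm_pw, ← gm_mul, ← gm_mul, ← gm_smul]
      congr 1
      funext d
      exact hT d)
  obtain ⟨ν, hν⟩ := mk_surj (D (mk ℂ κ) / mk ℂ κ)
  rw [← hν, ← gm_dpw, ← gm_dpw, ← gm_mul, ← gm_mul, ← gm_sub, ← gm_smul, gm_ext] at h1
  obtain ⟨d, hd1, hd2⟩ := (h1.and hq).exists
  exact hTn d hd2 ⟨ν d, hd1⟩

end Pool.Agent.T2h17.AH
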