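import Mathlib

/-!
The symplectic Lie algebra: ranks of some linear maps.
-/

set_option autoImplicit false
set_option maxHeartbeats 400000

open Matrix Module

namespace Pool.Agent.T2h17.AH

variable {n : ℕ}

/-- the symplectic Lie algebra of the form `x S yᵀ` -/
def sp (S : Matrix (Fin n) (Fin n) ℂ) : Submodule ℂ (Matrix (Fin n) (Fin n) ℂ) where
  carrier := {X | X * S + S * Xᵀ = 0}
  add_mem' := by
    intro X Y hX hY
    show (X + Y) * S + S * (X + Y)ᵀ = 0
    rw [Matrix.add_mul, transpose_add, Matrix.mul_add]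
    have hX' : X * S + S * Xᵀ = 0 := hX
    have hY' : Y * S + S * Yᵀ = 0 := hY
    calc X * S + Y * S + (S * Xᵀ + S * Yᵀ) = (X * S + S * Xᵀ) + (Y * S + S * Yᵀ) := by abel
      _ = 0 := by rw [hX', hY', add_zero]
  zero_mem' := by
    show (0 : Matrix (Fin n) (Fin n) ℂ) * S + S * (0 : Matrix (Fin n) (Fin n) ℂ)ᵀ = 0
    rw [Matrix.zero_mul, transpose_zero, Matrix.mul_zero, add_zero]
  smul_mem' := by
    intro c X hX
    have hX' : X * S + S * Xᵀ = 0 := hX
    show (c • X) * S + S * (c • X)ᵀ = 0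
    rw [Matrix.smul_mul, transpose_smul, Matrix.mul_smul, ← smul_add, hX', smul_zero]

/-- the bilinear form -/
def om (S : Matrix (Fin n) (Fin n) ℂ) (x y : Fin n → ℂ) : ℂ := x ⬝ᵥ (S *ᵥ y)

/-- the elements of the symplectic Lie algebra of small rank -/
def Xm (S : Matrix (Fin n) (Fin n) ℂ) (p q : Fin n → ℂ) : Matrix (Fin n) (Fin n) ℂ :=
  vecMulVec (S *ᵥ p) q + vecMulVec (S *ᵥ q) p

variable {S : Matrix (Fin n) (Fin n) ℂ}

theorem vm_S (hS : Sᵀ = -S) (q : Fin n → ℂ) : q ᵥ* S = -(S *ᵥ q) := by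
  rw [← mulVec_transpose, hS, neg_mulVec]

theorem Xm_mem (hS : Sᵀ = -S) (p q : Fin n → ℂ) : Xm S p q ∈ sp S := by
  show Xm S p q * S + S * (Xm S p q)ᵀ = 0
  ext i j
  have h1 : ∀ (a b : Fin n → ℂ), (vecMulVec a b * S) i j = a i * (b ᵥ* S) j := by
    intro a b
    rw [Matrix.mul_apply]
    simp only [vecMulVec_apply, vecMul, dotProduct, Finset.mul_sum]
    exact Finset.sum_congr rfl fun c _ => by ring
  have h2 : ∀ (a b : Fin n → ℂ), (S * (vecMulVec a b)ᵀ) i j = (S *ᵥ b) i * a j := by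
    intro a b
    rw [Matrix.mul_apply]
    simp only [vecMulVec_apply, transpose_apply, mulVec, dotProduct, Finset.sum_mul]
    exact Finset.sum_congr rfl fun c _ => by ring
  unfold Xm
  rw [Matrix.add_mul, transpose_add, Matrix.mul_add, Matrix.add_apply, Matrix.add_apply,
    Matrix.add_apply, h1, h1, h2, h2, vm_S hS, vm_S hS, Pi.neg_apply, Pi.neg_apply, Matrix.zero_apply]
  ring

theorem om_self (hS : Sᵀ = -S) (x y : Fin n → ℂ) : om S x y = -om S y x := by
  unfold om
  rw [dotProduct_mulVec, vm_S hS, neg_dotProduct, dotProduct_comm]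

theorem om_zero (hS : Sᵀ = -S) (x : Fin n → ℂ) : om S x x = 0 := by
  have h := om_self hS x x
  have h2 : (2 : ℂ) * om S x x = 0 := by linear_combination h
  exact (mul_eq_zero.1 h2).resolve_left two_ne_zero

theorem om_add_right (x y z : Fin n → ℂ) : om S x (y + z) = om S x y + om S x z := by
  unfold om
  rw [mulVec_add, dotProduct_add]

theorem om_smul_right (c : ℂ) (x y : Fin n → ℂ) : om S x (c • y) = c * om S x y := by
  unfold om
  rw [mulVec_smul, dotProduct_smul, smul_eq_mul]

theorem om_sub_right (x y z : Fin n → ℂ) : om S x (y - z) = om S x y - om S x z := by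
  unfold om
  rw [mulVec_sub, dotProduct_sub]

theorem vm_Xm (x p q : Fin n → ℂ) : x ᵥ* Xm S p q = om S x p • q + om S x q • p := by
  have h1 : ∀ (a b : Fin n → ℂ), x ᵥ* vecMulVec a b = (x ⬝ᵥ a) • b := by
    intro a b
    funext j
    simp only [vecMul, dotProduct, vecMulVec_apply, Pi.smul_apply, smul_eq_mul, Finset.sum_mul]
    exact Finset.sum_congr rfl fun c _ => by ring
  unfold Xm om
  rw [vecMul_add, h1, h1]

theorem Xm_mv (z p q : Fin n → ℂ) : Xm S p q *ᵥ z = (q ⬝ᵥ z) • (S *ᵥ p) + (p ⬝ᵥ z) • (S *ᵥ q) := by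
  have h1 : ∀ (a b : Fin n → ℂ), vecMulVec a b *ᵥ z = (b ⬝ᵥ z) • a := by
    intro a b
    funext j
    simp only [mulVec, dotProduct, vecMulVec_apply, Pi.smul_apply, smul_eq_mul, Finset.sum_mul]
    exact Finset.sum_congr rfl fun c _ => by ring
  unfold Xm
  rw [add_mulVec, h1, h1]

/-- the elements as a linear function of the second vector -/
def XL (S : Matrix (Fin n) (Fin n) ℂ) (p : Fin n → ℂ) : (Fin n → ℂ) →ₗ[ℂ] Matrix (Fin n) (Fin n) ℂ where
  toFun := Xm S p
  map_add' := by
    intro q q'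
    ext i j
    simp only [Xm, Matrix.add_apply, vecMulVec_apply, mulVec_add, Pi.add_apply]
    ring
  map_smul' := by
    intro c q
    ext i j
    simp only [Xm, Matrix.add_apply, vecMulVec_apply, mulVec_smul, Pi.smul_apply, smul_eq_mul,
      Matrix.smul_apply, RingHom.id_apply]
    ring

theorem XL_apply (p q : Fin n → ℂ) : XL S p q = Xm S p q := rfl

/-- linear forms -/
theorem ex_form (hd : S.det ≠ 0) (f : (Fin n → ℂ) →ₗ[ℂ] ℂ) : ∃ p : Fin n → ℂ, ∀ x, om S x p = f x := by
  set a : Fin n → ℂ := fun i => f (Pi.single i 1) with ha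
  refine ⟨S⁻¹ *ᵥ a, fun x => ?_⟩
  unfold om
  rw [mulVec_mulVec, Matrix.mul_nonsing_inv _ (isUnit_iff_ne_zero.2 hd), one_mulVec]
  conv_rhs => rw [← Finset.univ_sum_single x]
  rw [map_sum]
  refine Finset.sum_congr rfl fun i _ => ?_
  have h1 : (Pi.single i (x i) : Fin n → ℂ) = x i • Pi.single i 1 := by
    rw [← Pi.single_smul, smul_eq_mul, mul_one]
  rw [h1, map_smul, smul_eq_mul]

theorem ex_om (hd : S.det ≠ 0) {v w : Fin n → ℂ} (h : w ∉ Submodule.span ℂ {v}) :
    ∃ p, om S v p = 0 ∧ om S w p = 1 := by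
  obtain ⟨f, hf1, hf2⟩ := Submodule.exists_le_ker_of_notMem h
  have hf3 : f v = 0 := hf2 (Submodule.mem_span_singleton_self v)
  obtain ⟨p, hp⟩ := ex_form hd ((f w)⁻¹ • f)
  refine ⟨p, ?_, ?_⟩
  · rw [hp, LinearMap.smul_apply, hf3, smul_zero]
  · rw [hp, LinearMap.smul_apply, smul_eq_mul, inv_mul_cancel₀ hf1]

/-- a lower bound for the rank -/
theorem rank_of_inj {M M' : Type} [AddCommGroup M] [Module ℂ M] [AddCommGroup M'] [Module ℂ M']
    [FiniteDimensional ℂ M'] {G : Submodule ℂ M} (θ : M →ₗ[ℂ] M') (f : (Fin n → ℂ) →ₗ[ℂ] M)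
    (hf : ∀ q, f q ∈ G) (hinj : ∀ q, θ (f q) = 0 → q = 0) : n ≤ finrank ℂ (G.map θ) := by
  have h1 : Function.Injective (θ.comp f) := by
    rw [← LinearMap.ker_eq_bot, LinearMap.ker_eq_bot']
    exact hinj
  have h2 : LinearMap.range (θ.comp f) ≤ G.map θ := by
    rintro _ ⟨q, rfl⟩
    exact ⟨f q, hf q, rfl⟩
  calc n = finrank ℂ (Fin n → ℂ) := by rw [finrank_fin_fun]
    _ = finrank ℂ (LinearMap.range (θ.comp f)) := (LinearMap.finrank_range_of_inj h1).symm
    _ ≤ _ := Submodule.finrank_mono h2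

/-- the right multiplication -/
def mr (b : Matrix (Fin n) (Fin n) ℂ) : Matrix (Fin n) (Fin n) ℂ →ₗ[ℂ] Matrix (Fin n) (Fin n) ℂ where
  toFun := fun X => X * b
  map_add' := fun X Y => Matrix.add_mul X Y b
  map_smul' := fun c X => Matrix.smul_mul c X b

/-- the left multiplication -/
def ml (b : Matrix (Fin n) (Fin n) ℂ) : Matrix (Fin n) (Fin n) ℂ →ₗ[ℂ] Matrix (Fin n) (Fin n) ℂ where
  toFun := fun X => b * X
  map_add' := fun X Y => Matrix.mul_add b X Y
  map_smul' := fun c X => Matrix.mul_smul b c X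

/-- **right multiplication by a nonzero matrix** -/
theorem rank_right (hS : Sᵀ = -S) (hd : S.det ≠ 0) {b : Matrix (Fin n) (Fin n) ℂ} (hb : b ≠ 0) :
    n ≤ finrank ℂ ((sp S).map (mr b)) := by
  obtain ⟨u, hu⟩ : ∃ u : Fin n → ℂ, b *ᵥ u ≠ 0 := by
    by_contra hcon
    push Not at hcon
    apply hb
    ext i j
    have h1 := congrFun (hcon (Pi.single j 1)) i
    rw [mulVec_single_one, Pi.zero_apply] at h1
    exact h1
  set z := b *ᵥ u with hz
  obtain ⟨c, hc⟩ : ∃ c, z c ≠ 0 := by
    by_contra hcon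
    push Not at hcon
    exact hu (funext hcon)
  set p : Fin n → ℂ := Pi.single c (z c)⁻¹ with hp
  have hpz : p ⬝ᵥ z = 1 := by
    rw [hp, single_dotProduct, inv_mul_cancel₀ hc]
  refine rank_of_inj (mr b) (XL S p) (fun q => Xm_mem hS p q) fun q hq => ?_
  have h1 : (Xm S p q) *ᵥ z = 0 := by
    have h2 : Xm S p q * b = 0 := hq
    rw [hz, mulVec_mulVec, h2, zero_mulVec]
  rw [Xm_mv, hpz, one_smul, ← mulVec_smul, ← mulVec_add] at h1
  have h2 : (q ⬝ᵥ z) • p + q = 0 := by
    have h3 := congrArg (fun x => S⁻¹ *ᵥ x) h1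
    rw [mulVec_mulVec, Matrix.nonsing_inv_mul _ (isUnit_iff_ne_zero.2 hd), one_mulVec, mulVec_zero] at h3
    exact h3
  have h3 := congrArg (fun x => x ⬝ᵥ z) h2
  rw [add_dotProduct, smul_dotProduct, hpz, smul_eq_mul, mul_one, zero_dotProduct] at h3
  have h4 : q ⬝ᵥ z = 0 := by
    have h5 : (2 : ℂ) * (q ⬝ᵥ z) = 0 := by linear_combination h3
    exact (mul_eq_zero.1 h5).resolve_left two_ne_zero
  rw [h4, zero_smul, zero_add] at h2
  exact h2

/-- **left multiplication by a nonzero matrix** -/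
theorem rank_left (hS : Sᵀ = -S) (hd : S.det ≠ 0) {b : Matrix (Fin n) (Fin n) ℂ} (hb : b ≠ 0) :
    n ≤ finrank ℂ ((sp S).map (ml b)) := by
  obtain ⟨u, hu⟩ : ∃ u : Fin n → ℂ, u ᵥ* b ≠ 0 := by
    by_contra hcon
    push Not at hcon
    apply hb
    ext i j
    have h1 := congrFun (hcon (Pi.single i 1)) j
    rw [single_one_vecMul, Pi.zero_apply] at h1
    exact h1
  set z := u ᵥ* b with hz
  obtain ⟨p, -, hp⟩ := ex_om hd (v := 0) (w := z) (by
    rw [Submodule.span_zero_singleton, Submodule.mem_bot]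
    exact hu)
  refine rank_of_inj (ml b) (XL S p) (fun q => Xm_mem hS p q) fun q hq => ?_
  have h1 : z ᵥ* (Xm S p q) = 0 := by
    have h2 : b * Xm S p q = 0 := hq
    rw [hz, vecMul_vecMul, h2, vecMul_zero]
  rw [vm_Xm, hp, one_smul] at h1
  have h3 := congrArg (fun x => om S z x) h1
  rw [om_add_right, om_smul_right, hp, mul_one] at h3
  have h5 : om S z (0 : Fin n → ℂ) = 0 := by
    unfold om
    rw [mulVec_zero, dotProduct_zero]
  have h4 : om S z q = 0 := by
    have h6 : (2 : ℂ) * om S z q = 0 := by linear_combination h3 + h5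
    exact (mul_eq_zero.1 h6).resolve_left two_ne_zero
  rw [h4, zero_smul, add_zero] at h1
  exact h1

/-- matrices for which all vectors are eigenvectors are scalar -/
theorem scalar_of_eigen {b : Matrix (Fin n) (Fin n) ℂ} (h : ∀ v : Fin n → ℂ, v ᵥ* b ∈ Submodule.span ℂ {v}) :
    ∃ c : ℂ, b = c • 1 := by
  rcases Nat.eq_zero_or_pos n with rfl | hn
  · exact ⟨0, by ext i; exact i.elim0⟩
  choose c hc using fun v => Submodule.mem_span_singleton.1 (h v)
  have hrow : ∀ i j, b i j = if i = j then c (Pi.single i 1) else 0 := by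
    intro i j
    have h1 := congrFun (hc (Pi.single i 1)) j
    rw [single_one_vecMul, Pi.smul_apply, smul_eq_mul] at h1
    have h2 : b i j = b.row i j := rfl
    rw [h2, ← h1]
    by_cases hij : i = j
    · subst hij
      rw [if_pos rfl, Pi.single_eq_same, mul_one]
    · rw [if_neg hij, Pi.single_eq_of_ne (Ne.symm hij), mul_zero]
  have heq : ∀ i j : Fin n, c (Pi.single i 1) = c (Pi.single j 1) := by
    intro i j
    by_cases hij : i = j
    · rw [hij]
    have h1 := hc (Pi.single i 1 + Pi.single j 1)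
    have h2 : ∀ m, ((Pi.single i 1 + Pi.single j 1 : Fin n → ℂ) ᵥ* b) m = b i m + b j m := by
      intro m
      rw [add_vecMul, single_one_vecMul, single_one_vecMul]
      rfl
    have h3 := congrFun h1 i
    have h4 := congrFun h1 j
    rw [h2, hrow, hrow, if_pos rfl, if_neg (Ne.symm hij), Pi.smul_apply, Pi.add_apply, smul_eq_mul,
      Pi.single_eq_same, Pi.single_eq_of_ne hij, add_zero, add_zero, mul_one] at h3
    rw [h2, hrow, hrow, if_pos rfl, if_neg hij, Pi.smul_apply, Pi.add_apply, smul_eq_mul,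
      Pi.single_eq_same, Pi.single_eq_of_ne (Ne.symm hij), zero_add, zero_add, mul_one] at h4
    rw [← h3, h4]
  refine ⟨c (Pi.single ⟨0, hn⟩ 1), ?_⟩
  ext i j
  rw [hrow, Matrix.smul_apply, Matrix.one_apply, smul_eq_mul]
  split_ifs
  · rw [mul_one, heq i ⟨0, hn⟩]
  · rw [mul_zero]

/-- the product of a row with a commutator -/
theorem vm_comm (v x p q : Fin n → ℂ) (b : Matrix (Fin n) (Fin n) ℂ) (hx : v ᵥ* b = x) :
    v ᵥ* (Xm S p q * b - b * Xm S p q) =
      om S v p • (q ᵥ* b) + om S v q • (p ᵥ* b) - (om S x p • q + om S x q • p) := by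
  rw [vecMul_sub, ← vecMul_vecMul, ← vecMul_vecMul, hx, vm_Xm, vm_Xm, add_vecMul, smul_vecMul,
    smul_vecMul]

/-- **the commutator with a matrix which is not scalar** -/
theorem rank_comm (hS : Sᵀ = -S) (hd : S.det ≠ 0) {b : Matrix (Fin n) (Fin n) ℂ}
    (hb : ∀ c : ℂ, b ≠ c • 1) : n ≤ finrank ℂ ((sp S).map (mr b - ml b)) := by
  have hzero : ∀ x, om S x (0 : Fin n → ℂ) = 0 := fun x => by
    unfold om
    rw [mulVec_zero, dotProduct_zero]
  by_cases hcase : ∃ v, om S v (v ᵥ* b) ≠ 0
  · obtain ⟨v, hv⟩ := hcase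
    set w := v ᵥ* b with hw
    refine rank_of_inj (mr b - ml b) (XL S v) (fun q => Xm_mem hS v q) fun q hq => ?_
    have h0 : Xm S v q * b - b * Xm S v q = 0 := hq
    have h1 := vm_comm (S := S) v w v q b hw.symm
    rw [h0, vecMul_zero, om_zero hS, zero_smul, zero_add, ← hw, om_self hS w v] at h1
    -- `om v q • w + om v w • q - om w q • v = 0`
    have h2 : om S v q • w - (-om S v w • q + om S w q • v) = 0 := h1.symm
    have h3 := congrArg (om S v) h2
    rw [om_sub_right, om_add_right, om_smul_right, om_smul_right, om_smul_right, om_zero hS,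
      hzero, mul_zero, add_zero] at h3
    have h4 : om S v q = 0 := by
      have h5 : (2 * om S v w) * om S v q = 0 := by linear_combination h3
      exact (mul_eq_zero.1 h5).resolve_left (mul_ne_zero two_ne_zero hv)
    have h5 := congrArg (om S w) h2
    rw [om_sub_right, om_add_right, om_smul_right, om_smul_right, om_smul_right, om_zero hS,
      hzero, mul_zero, om_self hS w v] at h5
    have h6 : om S w q = 0 := by
      have h7 : (2 * om S v w) * om S w q = 0 := by linear_combination h5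
      exact (mul_eq_zero.1 h7).resolve_left (mul_ne_zero two_ne_zero hv)
    rw [h4, h6, zero_smul, zero_smul, add_zero, zero_sub, neg_smul, neg_neg] at h2
    exact (smul_eq_zero.1 h2).resolve_left hv
  · push Not at hcase
    obtain ⟨v, hv⟩ : ∃ v : Fin n → ℂ, v ᵥ* b ∉ Submodule.span ℂ {v} := by
      by_contra hcon
      push Not at hcon
      obtain ⟨c, hc⟩ := scalar_of_eigen hcon
      exact hb c hc
    set w := v ᵥ* b with hw
    have hvw : om S v w = 0 := hcase v
    have hwv : om S w v = 0 := by rw [om_self hS, hvw, neg_zero]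
    obtain ⟨p, hp1, hp2⟩ := ex_om hd hv
    have hv0 : v ≠ 0 := by
      rintro rfl
      apply hv
      rw [hw, zero_vecMul]
      exact Submodule.zero_mem _
    -- a vector with `om v r = 1`
    obtain ⟨r, -, hr⟩ := ex_om hd (v := 0) (w := v) (by
      rw [Submodule.span_zero_singleton, Submodule.mem_bot]
      exact hv0)
    -- the commutator with `Xm v v`
    have hvv : Xm S v v * b - b * Xm S v v ≠ 0 := by
      intro h0
      have h1 := vm_comm (S := S) (-r) (-r ᵥ* b) v v b rfl
      rw [h0, vecMul_zero, ← hw] at h1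
      have h2 : om S (-r) v = 1 := by
        rw [om_self hS, ← hr]
        unfold om
        rw [mulVec_neg, dotProduct_neg, neg_neg]
      rw [h2, one_smul] at h1
      apply hv
      rw [Submodule.mem_span_singleton]
      refine ⟨om S (-r ᵥ* b) v, ?_⟩
      have h3 : (2 : ℂ) • (om S (-r ᵥ* b) v • v) = (2 : ℂ) • w := by
        rw [two_smul, two_smul]
        exact (sub_eq_zero.1 h1.symm).symm
      exact smul_right_injective _ (two_ne_zero (α := ℂ)) h3
    -- the linear map
    let g : (Fin n → ℂ) →ₗ[ℂ] ℂ :=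
      { toFun := om S v
        map_add' := om_add_right v
        map_smul' := fun c x => om_smul_right c v x }
    let g' : (Fin n → ℂ) →ₗ[ℂ] ℂ :=
      { toFun := om S w
        map_add' := om_add_right w
        map_smul' := fun c x => om_smul_right c w x }
    let q0 : (Fin n → ℂ) →ₗ[ℂ] (Fin n → ℂ) := LinearMap.id - g.smulRight r
    let q1 : (Fin n → ℂ) →ₗ[ℂ] (Fin n → ℂ) := q0 - ((2⁻¹ : ℂ) • (g'.comp q0)).smulRight p
    let f : (Fin n → ℂ) →ₗ[ℂ] Matrix (Fin n) (Fin n) ℂ :=
      (XL S p).comp q1 + g.smulRight (Xm S v v)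
    have hf : ∀ q, f q = Xm S p (q1 q) + om S v q • Xm S v v := fun q => rfl
    have hq0 : ∀ q, q0 q = q - om S v q • r := fun q => rfl
    have hq1 : ∀ q, q1 q = q0 q - (2⁻¹ * om S w (q0 q)) • p := fun q => rfl
    have hv0' : ∀ q, om S v (q0 q) = 0 := fun q => by
      rw [hq0, om_sub_right, om_smul_right, hr, mul_one, sub_self]
    have hv1 : ∀ q, om S v (q1 q) = 0 := fun q => by
      rw [hq1, om_sub_right, om_smul_right, hv0', hp1, mul_zero, sub_zero]
    have hw1 : ∀ q, om S w (q1 q) = 2⁻¹ * om S w (q0 q) := fun q => by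
      rw [hq1, om_sub_right, om_smul_right, hp2]
      ring
    refine rank_of_inj (mr b - ml b) f (fun q => ?_) fun q hq => ?_
    · rw [hf]
      exact (sp S).add_mem (Xm_mem hS _ _) ((sp S).smul_mem _ (Xm_mem hS _ _))
    · have h0 : (Xm S p (q1 q) * b - b * Xm S p (q1 q)) +
          om S v q • (Xm S v v * b - b * Xm S v v) = 0 := by
        have h1 : f q * b - b * f q = 0 := hq
        rw [hf, Matrix.add_mul, Matrix.mul_add, Matrix.smul_mul, Matrix.mul_smul] at h1
        rw [smul_sub]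
        calc (Xm S p (q1 q) * b - b * Xm S p (q1 q)) +
            (om S v q • (Xm S v v * b) - om S v q • (b * Xm S v v)) =
            Xm S p (q1 q) * b + om S v q • (Xm S v v * b) -
              (b * Xm S p (q1 q) + om S v q • (b * Xm S v v)) := by abel
          _ = 0 := h1
      have h2 := congrArg (fun M => v ᵥ* M) h0
      rw [vecMul_add, vecMul_smul, vm_comm v w p (q1 q) b hw.symm, vm_comm v w v v b hw.symm, hp1,
        hv1, om_zero hS, hwv, hp2, hw1, vecMul_zero] at h2
      simp only [zero_smul, add_zero, sub_zero, zero_add, one_smul, zero_sub, smul_zero] at h2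
      have h3 : q0 q = 0 := by
        have h4 : q1 q + (2⁻¹ * om S w (q0 q)) • p = q0 q := by
          rw [hq1]
          abel
        rw [h4] at h2
        exact neg_eq_zero.1 h2
      have h4 : q1 q = 0 := by
        rw [hq1, h3, hzero, mul_zero, zero_smul, sub_zero]
      have h5 : Xm S p (0 : Fin n → ℂ) = 0 := by
        have := map_zero (XL S p)
        exact this
      rw [h4, h5, Matrix.zero_mul, Matrix.mul_zero, sub_zero, zero_add] at h0
      have h6 : om S v q = 0 := (smul_eq_zero.1 h0).resolve_right hvv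
      rw [hq0, h6, zero_smul, sub_zero] at h3
      exact h3

end Pool.Agent.T2h17.AH
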