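import Pool.Agent.T2h17.AH.Tr
import Pool.Agent.T2h17.AH.Sp

/-!
Algebraic endomorphisms of the direct sums of the fibres.
-/

set_option autoImplicit false
set_option maxHeartbeats 400000

open Matrix Module

namespace Pool.Agent.T2h17.AH

open Pool.Agent.T2h17.HW (En Gen tc tc_pow)
open Pool.Agent.T2h17.TV (Tg cj)

/-! ### an inequality of dimensions -/

section dim
variable {V V' : Type} [AddCommGroup V] [Module ℂ V] [FiniteDimensional ℂ V] [AddCommGroup V']
  [Module ℂ V'] [FiniteDimensional ℂ V']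

theorem dim_ineq2 {ρ : Type} [Fintype ρ] (G T : Submodule ℂ V) (θ ψ : ρ → V →ₗ[ℂ] V')
    (h : ∀ Y : ρ → V, (∀ j, Y j ∈ G) → ∃ Z ∈ T, ∀ j, θ j (Y j) = ψ j Z) :
    ∑ j, finrank ℂ (G.map (θ j)) + finrank ℂ (T ⊓ ⨅ j, LinearMap.ker (ψ j) : Submodule ℂ V) ≤
      finrank ℂ T := by
  classical
  set Ψ : V →ₗ[ℂ] (ρ → V') := LinearMap.pi ψ with hΨ
  have hker : LinearMap.ker Ψ = ⨅ j, LinearMap.ker (ψ j) := by rw [hΨ, LinearMap.ker_pi]
  set Ψ' : T →ₗ[ℂ] (ρ → V') := Ψ.comp T.subtype with hΨ'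
  have h1 := LinearMap.finrank_range_add_finrank_ker Ψ'
  have h2 : finrank ℂ (LinearMap.ker Ψ') = finrank ℂ (T ⊓ ⨅ j, LinearMap.ker (ψ j) : Submodule ℂ V) := by
    have h3 : LinearMap.ker Ψ' = (⨅ j, LinearMap.ker (ψ j)).comap T.subtype := by
      rw [hΨ', LinearMap.ker_comp, hker]
    have h4 : ((⨅ j, LinearMap.ker (ψ j)).comap T.subtype).map T.subtype =
        T ⊓ ⨅ j, LinearMap.ker (ψ j) := by
      rw [Submodule.map_comap_subtype]
    rw [h3, ← h4]
    exact (Submodule.finrank_map_subtype_eq _ _).symm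
  let incl : (∀ j, G.map (θ j)) →ₗ[ℂ] (ρ → V') :=
    LinearMap.pi fun j => (G.map (θ j)).subtype.comp (LinearMap.proj j)
  have hincl : ∀ f, ∀ j, incl f j = (f j : V') := fun f j => rfl
  have hinj : Function.Injective incl := by
    intro f f' hff
    funext j
    exact Subtype.ext (congrFun hff j)
  have hsub : LinearMap.range incl ≤ LinearMap.range Ψ' := by
    rintro _ ⟨f, rfl⟩
    choose y hy hy' using fun j => (f j).2
    obtain ⟨Z, hZ, hYZ⟩ := h y hy
    refine ⟨⟨Z, hZ⟩, ?_⟩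
    funext j
    rw [hincl, ← hy' j]
    exact (hYZ j).symm
  have h3 : finrank ℂ (∀ j, G.map (θ j)) ≤ finrank ℂ (LinearMap.range Ψ') := by
    rw [← LinearMap.finrank_range_of_inj hinj]
    exact Submodule.finrank_mono hsub
  rw [Module.finrank_pi_fintype] at h3
  rw [h2] at h1
  omega

end dim

/-! ### endomorphisms -/

section endo
variable {ι : Type} [Fintype ι] [DecidableEq ι]

/-- the rational endomorphism `B` is algebraic in de Rham cohomology -/
def AlgE (D0 : ℕ) (P : Matrix ι ι ℂ) (B : Matrix ι ι ℚ) : Prop :=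
  ∃ K : IntermediateField ℚ ℂ, FiniteDimensional ℚ K ∧ Module.finrank ℚ K ≤ D0 ∧
    ∀ i m, (P * tc B * P⁻¹) i m ∈ K

theorem pw1 {R α β : Type} [CommRing R] (A : Matrix α β R) (i : Fin 1 → α) (m : Fin 1 → β) :
    pw 1 A i m = A (i 0) (m 0) := by
  show ∏ s : Fin 1, A (i s) (m s) = _
  rw [Fin.prod_univ_one]

theorem dpw1 {R α : Type} [CommRing R] [DecidableEq α] (A : Matrix α α R) : dpw 1 A = pw 1 A := by
  unfold dpw pw
  rw [Fin.sum_univ_one]
  congr 1
  funext s
  rw [Subsingleton.elim s 0, Function.update_self]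

theorem pw1_inj {R α β : Type} [CommRing R] {A B : Matrix α β R} (h : pw 1 A = pw 1 B) : A = B := by
  ext i m
  have h1 := congrFun (congrFun h fun _ => i) fun _ => m
  rwa [pw1, pw1] at h1

theorem pres_one {B : Matrix ι ι ℚ} {X : Matrix ι ι ℂ} (h : Pres (pw 1 B) X) :
    ∃ μ : ℂ, X * tc B - tc B * X = μ • tc B := by
  obtain ⟨μ, h⟩ := h
  refine ⟨μ, pw1_inj ?_⟩
  rw [dpw1, tc_pw, ← pw_mul, ← pw_mul] at h
  have h1 : ∀ A B : Matrix ι ι ℂ, pw 1 (A - B) = pw 1 A - pw 1 B := by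
    intro A B
    ext i m
    rw [Matrix.sub_apply, pw1, pw1, pw1, Matrix.sub_apply]
  have h2 : pw 1 (μ • tc B) = μ • pw 1 (tc B) := by
    ext i m
    rw [Matrix.smul_apply, pw1, pw1, Matrix.smul_apply]
  rw [h1, h2, h]

theorem algT_of_algE {D0 : ℕ} {P : Matrix ι ι ℂ} {B : Matrix ι ι ℚ} (h : AlgE D0 P B) :
    AlgT D0 P (pw 1 B) := by
  obtain ⟨K, h1, h2, h3⟩ := h
  refine ⟨K, 1, h1, h2, one_ne_zero, fun i m => ⟨_, h3 (i 0) (m 0), ?_⟩⟩
  rw [tc_pw, ← pw_mul, ← pw_mul, pw1, one_mul]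

theorem algE_add_one {D0 : ℕ} {P : Matrix ι ι ℂ} (hP : P.det ≠ 0) {B : Matrix ι ι ℚ}
    (h : AlgE D0 P B) : AlgE D0 P (B + 1) := by
  obtain ⟨K, h1, h2, h3⟩ := h
  refine ⟨K, h1, h2, fun i m => ?_⟩
  have h4 : tc (B + 1) = tc B + 1 := by
    ext a c
    simp only [tc, Matrix.map_apply, Matrix.add_apply, Matrix.one_apply]
    push_cast
    split_ifs <;> simp
  rw [h4, Matrix.mul_add, Matrix.add_mul, Matrix.mul_one,
    Matrix.mul_nonsing_inv _ (isUnit_iff_ne_zero.2 hP), Matrix.add_apply]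
  refine K.add_mem (h3 i m) ?_
  rw [Matrix.one_apply]
  split_ifs
  · exact one_mem _
  · exact zero_mem _

/-- **elements of the Lie algebra commute with algebraic endomorphisms** -/
theorem comm_of_lie {D0 a0 : ℕ} (ha : 1 ≤ a0) {P X : Matrix ι ι ℂ} (hP : P.det ≠ 0)
    (hX : X ∈ LieT D0 a0 P) {B : Matrix ι ι ℚ} (hB : AlgE D0 P B) : X * tc B = tc B * X := by
  obtain ⟨μ, h1⟩ := pres_one (hX 1 ha 1 ha _ (algT_of_algE hB))
  obtain ⟨ν, h2⟩ := pres_one (hX 1 ha 1 ha _ (algT_of_algE (algE_add_one hP hB)))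
  have h4 : tc (B + 1) = tc B + 1 := by
    ext a c
    simp only [tc, Matrix.map_apply, Matrix.add_apply, Matrix.one_apply]
    push_cast
    split_ifs <;> simp
  rw [h4, Matrix.mul_add, Matrix.add_mul, Matrix.mul_one, Matrix.one_mul, add_sub_add_right_eq_sub,
    h1, smul_add] at h2
  rw [← sub_eq_zero, h1]
  by_cases hμν : μ = ν
  · subst hμν
    have h5 : μ • (1 : Matrix ι ι ℂ) = 0 := by
      have h6 : μ • tc B + μ • (1 : Matrix ι ι ℂ) = μ • tc B + 0 := by rw [← h2, add_zero]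
      exact add_left_cancel h6
    have h6 : μ • tc B = (μ • (1 : Matrix ι ι ℂ)) * tc B := by rw [Matrix.smul_mul, Matrix.one_mul]
    rw [h6, h5, Matrix.zero_mul]
  · have h5 : tc B = (ν / (μ - ν)) • (1 : Matrix ι ι ℂ) := by
      have h6 : (μ - ν) • tc B = ν • (1 : Matrix ι ι ℂ) := by
        rw [sub_smul, h2]
        abel
      rw [div_eq_inv_mul, mul_smul, ← h6, smul_smul, inv_mul_cancel₀ (sub_ne_zero.2 hμν), one_smul]
    rw [← h1, h5, Matrix.mul_smul, Matrix.smul_mul, Matrix.mul_one, Matrix.one_mul, sub_self]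

theorem algE_sub {D0 : ℕ} {P : Matrix ι ι ℂ} {B E : Matrix ι ι ℚ}
    (h : AlgE D0 P B) (hE : ∀ i m, ∃ q : ℚ, (P * tc E * P⁻¹) i m = (q : ℂ)) : AlgE D0 P (B - E) := by
  obtain ⟨K, h1, h2, h3⟩ := h
  refine ⟨K, h1, h2, fun i m => ?_⟩
  rw [Pool.Agent.T2h17.HW.tc_sub, Matrix.mul_sub, Matrix.sub_mul, Matrix.sub_apply]
  refine K.sub_mem (h3 i m) ?_
  obtain ⟨q, hq⟩ := hE i m
  rw [hq]
  exact K.algebraMap_mem q

end endo

/-! ### exceptional points -/

variable {n k r : ℕ}

/-- the blocks -/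
def blk {R : Type} (B : Matrix (Fin n × Fin k) (Fin n × Fin k) R) (j j' : Fin k) :
    Matrix (Fin n) (Fin n) R := Matrix.of fun a c => B (a, j) (c, j')

theorem blk_comm {X : Fin k → Matrix (Fin n) (Fin n) ℂ} {B : Matrix (Fin n × Fin k) (Fin n × Fin k) ℚ}
    (h : blockDiagonal X * tc B = tc B * blockDiagonal X) (j j' : Fin k) :
    X j * tc (blk B j j') = tc (blk B j j') * X j' := by
  ext a c
  have h1 := congrFun (congrFun h (a, j)) (c, j')
  rw [Matrix.mul_apply, Matrix.mul_apply, Fintype.sum_prod_type, Fintype.sum_prod_type] at h1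
  rw [Matrix.mul_apply, Matrix.mul_apply]
  refine (Eq.trans ?_ h1).trans ?_
  · refine Finset.sum_congr rfl fun b _ => ?_
    rw [Finset.sum_eq_single j]
    · rw [blockDiagonal_apply_eq]
      rfl
    · intro i _ hi
      rw [blockDiagonal_apply_ne _ _ _ (Ne.symm hi), zero_mul]
    · intro hi
      exact absurd (Finset.mem_univ _) hi
  · refine Finset.sum_congr rfl fun b _ => ?_
    rw [Finset.sum_eq_single j']
    · rw [blockDiagonal_apply_eq]
      rfl
    · intro i _ hi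
      rw [blockDiagonal_apply_ne _ _ _ hi, mul_zero]
    · intro hi
      exact absurd (Finset.mem_univ _) hi

/-- `B` is supported on the fibres in `G` -/
def Supp (G : Finset (Fin k)) (B : Matrix (Fin n × Fin k) (Fin n × Fin k) ℚ) : Prop :=
  ∀ a c, (a.2 ∉ G ∨ c.2 ∉ G) → B a c = 0

/-- all algebraic endomorphisms which are supported on `G` are scalar on every fibre -/
def GoodG (D0 : ℕ) (P : Fin k → Matrix (Fin n) (Fin n) ℂ) (G : Finset (Fin k)) : Prop :=
  ∀ B : Matrix (Fin n × Fin k) (Fin n × Fin k) ℚ, Supp G B → AlgE D0 (blockDiagonal P) B →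
    ∃ c : Fin k → ℚ, B = blockDiagonal fun j => c j • 1

theorem good_empty (D0 : ℕ) (P : Fin k → Matrix (Fin n) (Fin n) ℂ) : GoodG D0 P ∅ := by
  intro B hB _
  refine ⟨0, ?_⟩
  have h1 : B = 0 := by
    ext a c
    exact hB a c (Or.inl (Finset.notMem_empty _))
  rw [h1]
  have h2 : (fun j : Fin k => (0 : Fin k → ℚ) j • (1 : Matrix (Fin n) (Fin n) ℚ)) = 0 := by
    funext j
    rw [Pi.zero_apply, zero_smul, Pi.zero_apply]
  rw [h2, blockDiagonal_zero]

/-- scalars on one fibre are rational in de Rham cohomology -/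
theorem single_alg {P : Fin k → Matrix (Fin n) (Fin n) ℂ} (hP : ∀ j, (P j).det ≠ 0) (e : Fin k → ℚ)
    (i m : Fin n × Fin k) : ∃ q : ℚ, (blockDiagonal P *
      tc (blockDiagonal fun j => e j • (1 : Matrix (Fin n) (Fin n) ℚ)) * (blockDiagonal P)⁻¹) i m =
        (q : ℂ) := by
  have h1 : tc (blockDiagonal fun j => e j • (1 : Matrix (Fin n) (Fin n) ℚ)) =
      blockDiagonal fun j => ((e j : ℚ) : ℂ) • (1 : Matrix (Fin n) (Fin n) ℂ) := by
    rw [Pool.Agent.T2h17.TV.tc_bd]
    congr 1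
    funext j
    ext a c
    simp only [tc, Matrix.map_apply, Matrix.smul_apply, Matrix.one_apply, smul_eq_mul]
    split_ifs <;> simp
  have hu : IsUnit (blockDiagonal P).det := by
    rw [det_blockDiagonal, isUnit_iff_ne_zero, Finset.prod_ne_zero_iff]
    exact fun j _ => hP j
  have h2 : blockDiagonal P * (blockDiagonal fun j => ((e j : ℚ) : ℂ) • (1 : Matrix (Fin n) (Fin n) ℂ)) =
      (blockDiagonal fun j => ((e j : ℚ) : ℂ) • (1 : Matrix (Fin n) (Fin n) ℂ)) * blockDiagonal P := by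
    rw [← blockDiagonal_mul, ← blockDiagonal_mul]
    congr 1
    funext j
    rw [Matrix.mul_smul, Matrix.smul_mul, Matrix.one_mul, Matrix.mul_one]
  rw [h1, h2, Matrix.mul_assoc, Matrix.mul_nonsing_inv _ hu, Matrix.mul_one]
  obtain ⟨a, j⟩ := i
  obtain ⟨c, j'⟩ := m
  rw [blockDiagonal_apply]
  by_cases hj : j = j'
  · subst hj
    rw [if_pos rfl]
    by_cases ha : a = c
    · subst ha
      exact ⟨e j, by simp⟩
    · exact ⟨0, by simp [Matrix.smul_apply, Matrix.one_apply, ha]⟩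
  · rw [if_neg hj]
    exact ⟨0, by simp⟩

/-- a bad fibre has a nonscalar endomorphism or a homomorphism to or from a good fibre -/
theorem bad_cases {D0 : ℕ} {P : Fin k → Matrix (Fin n) (Fin n) ℂ} (hP : ∀ j, (P j).det ≠ 0)
    {G : Finset (Fin k)} (hG : GoodG D0 P G) {j : Fin k} (hj : j ∉ G)
    (hbad : ¬ GoodG D0 P (insert j G)) : ∃ B : Matrix (Fin n × Fin k) (Fin n × Fin k) ℚ,
      AlgE D0 (blockDiagonal P) B ∧ ((∃ j' ∈ G, blk B j j' ≠ 0) ∨ (∃ j' ∈ G, blk B j' j ≠ 0) ∨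
        ∀ c : ℚ, blk B j j ≠ c • 1) := by
  classical
  unfold GoodG at hbad
  push Not at hbad
  obtain ⟨B, hsupp, halg, hB⟩ := hbad
  refine ⟨B, halg, ?_⟩
  by_contra hcon
  push Not at hcon
  obtain ⟨h1, h2, c, hc⟩ := hcon
  -- the part on `G`
  set E : Matrix (Fin n × Fin k) (Fin n × Fin k) ℚ :=
    blockDiagonal fun i => (if i = j then c else 0) • (1 : Matrix (Fin n) (Fin n) ℚ) with hE
  have hEa : ∀ a b, E a b = if a.2 = b.2 ∧ a.2 = j ∧ a.1 = b.1 then c else 0 := by
    rintro ⟨a, i⟩ ⟨b, i'⟩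
    rw [hE, blockDiagonal_apply, Matrix.smul_apply, Matrix.one_apply, smul_eq_mul]
    by_cases h3 : i = i'
    · rw [if_pos h3]
      by_cases h4 : i = j
      · by_cases h5 : a = b
        · simp [h3, h4, h5]
        · simp [h5]
      · simp [h4]
    · simp [h3]
  obtain ⟨e, he⟩ := hG (B - E) (by
    rintro ⟨a, i⟩ ⟨b, i'⟩ hi
    rw [Matrix.sub_apply, hEa]
    by_cases hi1 : i ∈ insert j G
    · by_cases hi2 : i' ∈ insert j G
      · rcases Finset.mem_insert.1 hi1 with rfl | h3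
        · rcases Finset.mem_insert.1 hi2 with rfl | h4
          · have h5 := congrFun (congrFun hc a) b
            have h6 : B (a, i') (b, i') = blk B i' i' a b := rfl
            rw [h6, h5, Matrix.smul_apply, Matrix.one_apply, smul_eq_mul]
            by_cases h7 : a = b
            · simp [h7]
            · simp [h7]
          · have h5 := congrFun (congrFun (h1 i' h4) a) b
            have h6 : B (a, i) (b, i') = blk B i i' a b := rfl
            have h7 : i ≠ i' := fun h => hj (h ▸ h4)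
            rw [h6, h5, if_neg (fun h => h7 h.1), Matrix.zero_apply, sub_zero]
        · rcases Finset.mem_insert.1 hi2 with rfl | h4
          · have h5 := congrFun (congrFun (h2 i h3) a) b
            have h6 : B (a, i) (b, i') = blk B i i' a b := rfl
            have h7 : i ≠ i' := fun h => hj (h ▸ h3)
            rw [h6, h5, if_neg (fun h => h7 h.1), Matrix.zero_apply, sub_zero]
          · rcases hi with hi | hi
            · exact absurd h3 hi
            · exact absurd h4 hi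
      · rw [hsupp (a, i) (b, i') (Or.inr hi2), if_neg, sub_zero]
        rintro ⟨h3, h4, -⟩
        simp only at h3 h4
        exact hi2 (by rw [← h3, h4]; exact Finset.mem_insert_self _ _)
    · rw [hsupp (a, i) (b, i') (Or.inl hi1), if_neg, sub_zero]
      rintro ⟨-, h4, -⟩
      simp only at h4
      exact hi1 (by rw [h4]; exact Finset.mem_insert_self _ _)) (algE_sub halg (single_alg hP _))
  refine hB (fun i => e i + if i = j then c else 0) ?_
  have h3 : B = (blockDiagonal fun i => e i • (1 : Matrix (Fin n) (Fin n) ℚ)) + E := by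
    rw [← he]
    abel
  rw [h3, hE, ← blockDiagonal_add]
  congr 1
  funext i
  rw [Pi.add_apply, add_smul]

/-- **the exceptional fibres** -/
theorem exceptional {β : Fin n × Fin n → Fin r → ℂ} {N : Matrix (Fin n) (Fin n) ℚ} {𝒩 : Set (Dir r n)}
    {d0 a0 D0 : ℕ} (ha : 1 ≤ a0) {C : Matrix (Fin n) (Fin n) ℂ} (hC : C.det ≠ 0)
    {v : Fin k → Fin r → ℂ}
    {l : ℂ} {t : Fin k → ℂ} (hT : Trans3 β N 𝒩 d0 a0 D0 C v l t)
    (hP : ∀ j, (bt β (v j) * En (tc N) (-(l + t j)) * C).det ≠ 0)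
    {T : Submodule ℂ (Matrix (Fin n) (Fin n) ℂ)} (hTT : Tg d0 C ⊔ Submodule.span ℂ {tc N} ≤ T)
    {S : Matrix (Fin n) (Fin n) ℂ} (hS : Sᵀ = -S) (hd : S.det ≠ 0)
    (hsp : sp S ≤ Submodule.span ℂ (Prod.snd '' 𝒩 ∪ {tc N})) {ν : ℕ}
    (hν : finrank ℂ T ≤ ν ∨ (1 ≤ n ∧ (1 : Matrix (Fin n) (Fin n) ℂ) ∈ T ∧ finrank ℂ T ≤ ν + 1)) :
    ∃ R : Finset (Fin k), R.card * n ≤ ν ∧
      GoodG D0 (fun j => bt β (v j) * En (tc N) (-(l + t j)) * C) Rᶜ := by
  classical
  set P : Fin k → Matrix (Fin n) (Fin n) ℂ := fun j => bt β (v j) * En (tc N) (-(l + t j)) * C with hPd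
  have hBPu : (blockDiagonal P).det ≠ 0 := by
    rw [det_blockDiagonal, Finset.prod_ne_zero_iff]
    exact fun j _ => hP j
  have hu : IsUnit C.det := isUnit_iff_ne_zero.2 hC
  -- a maximal set
  obtain ⟨G, hG, hmax⟩ : ∃ G : Finset (Fin k), GoodG D0 P G ∧ ∀ j ∉ G, ¬ GoodG D0 P (insert j G) := by
    obtain ⟨G, hG1, hG2⟩ := Finset.exists_max_image (Finset.univ.filter fun G => GoodG D0 P G)
      Finset.card ⟨∅, Finset.mem_filter.2 ⟨Finset.mem_univ _, good_empty D0 P⟩⟩
    refine ⟨G, (Finset.mem_filter.1 hG1).2, fun j hj hgood => ?_⟩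
    have h1 := hG2 _ (Finset.mem_filter.2 ⟨Finset.mem_univ _, hgood⟩)
    rw [Finset.card_insert_of_notMem hj] at h1
    omega
  refine ⟨Gᶜ, ?_, by rwa [compl_compl]⟩
  have hbad : ∀ j : {j // j ∈ Gᶜ}, ∃ B : Matrix (Fin n × Fin k) (Fin n × Fin k) ℚ,
      AlgE D0 (blockDiagonal P) B ∧ ((∃ j' ∈ G, blk B j j' ≠ 0) ∨ (∃ j' ∈ G, blk B j' j ≠ 0) ∨
        ∀ c : ℚ, blk B j j ≠ c • 1) := fun j =>
    bad_cases hP hG (Finset.mem_compl.1 j.2) (hmax _ (Finset.mem_compl.1 j.2))
  -- the linear maps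
  have hmaps : ∀ j : {j // j ∈ Gᶜ}, ∃ θ ψ : Matrix (Fin n) (Fin n) ℂ →ₗ[ℂ] Matrix (Fin n) (Fin n) ℂ,
      n ≤ finrank ℂ ((sp S).map θ) ∧ ψ 1 = 0 ∧
      ∀ (Y : Fin k → Matrix (Fin n) (Fin n) ℂ) (Z : Matrix (Fin n) (Fin n) ℂ), (∀ i ∈ G, Y i = 0) →
        (blockDiagonal fun j => C⁻¹ * (Y j + Z) * C) ∈ LieT D0 a0 (blockDiagonal P) →
        θ (Y j) = ψ Z := by
    intro j
    obtain ⟨B, hBalg, hB⟩ := hbad j
    -- the commutation in flat coordinates
    have hcomm : ∀ (Y : Fin k → Matrix (Fin n) (Fin n) ℂ) (Z : Matrix (Fin n) (Fin n) ℂ),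
        (blockDiagonal fun j => C⁻¹ * (Y j + Z) * C) ∈ LieT D0 a0 (blockDiagonal P) →
        ∀ i i', (Y i + Z) * (C * tc (blk B i i') * C⁻¹) = (C * tc (blk B i i') * C⁻¹) * (Y i' + Z) := by
      intro Y Z hmem i i'
      have h1 := blk_comm (comm_of_lie ha hBPu hmem hBalg) i i'
      calc (Y i + Z) * (C * tc (blk B i i') * C⁻¹) =
          C * (C⁻¹ * (Y i + Z) * C * tc (blk B i i')) * C⁻¹ := by
            simp only [← Matrix.mul_assoc]
            rw [Matrix.mul_nonsing_inv _ hu, Matrix.one_mul]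
        _ = C * (tc (blk B i i') * (C⁻¹ * (Y i' + Z) * C)) * C⁻¹ := by rw [h1]
        _ = (C * tc (blk B i i') * C⁻¹) * (Y i' + Z) * (C * C⁻¹) := by
            simp only [Matrix.mul_assoc]
        _ = _ := by rw [Matrix.mul_nonsing_inv _ hu, Matrix.mul_one]
    have hne : ∀ {b : Matrix (Fin n) (Fin n) ℚ}, b ≠ 0 → C * tc b * C⁻¹ ≠ 0 := by
      intro b hb h0
      apply hb
      have h1 : tc b = 0 := by
        calc tc b = C⁻¹ * (C * tc b * C⁻¹) * C := by
              simp only [← Matrix.mul_assoc]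
              rw [Matrix.nonsing_inv_mul _ hu, Matrix.one_mul, Matrix.mul_assoc,
                Matrix.nonsing_inv_mul _ hu, Matrix.mul_one]
          _ = 0 := by rw [h0, Matrix.mul_zero, Matrix.zero_mul]
      ext x y
      have h2 := congrFun (congrFun h1 x) y
      rw [tc, Matrix.map_apply, Matrix.zero_apply] at h2
      exact_mod_cast h2
    rcases hB with ⟨j', hj', hb⟩ | ⟨j', hj', hb⟩ | hb
    · set b := C * tc (blk B j j') * C⁻¹ with hbdef
      refine ⟨mr b, ml b - mr b, rank_right hS hd (hne hb), ?_, fun Y Z hY hmem => ?_⟩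
      · show b * 1 - 1 * b = 0
        rw [Matrix.mul_one, Matrix.one_mul, sub_self]
      · have h1 := hcomm Y Z hmem j j'
        rw [hY j' hj', zero_add, ← hbdef, Matrix.add_mul] at h1
        show Y j * b = b * Z - Z * b
        rw [← h1]
        abel
    · set b := C * tc (blk B j' j) * C⁻¹ with hbdef
      refine ⟨ml b, mr b - ml b, rank_left hS hd (hne hb), ?_, fun Y Z hY hmem => ?_⟩
      · show 1 * b - b * 1 = 0
        rw [Matrix.mul_one, Matrix.one_mul, sub_self]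
      · have h1 := hcomm Y Z hmem j' j
        rw [hY j' hj', zero_add, ← hbdef, Matrix.mul_add] at h1
        show b * Y j = Z * b - b * Z
        rw [h1]
        abel
    · set b := C * tc (blk B j j) * C⁻¹ with hbdef
      refine ⟨mr b - ml b, ml b - mr b, rank_comm hS hd ?_, ?_, fun Y Z hY hmem => ?_⟩
      · intro c hc
        have h1 : tc (blk B j j) = c • 1 := by
          calc tc (blk B j j) = C⁻¹ * (C * tc (blk B j j) * C⁻¹) * C := by
                simp only [← Matrix.mul_assoc]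
                rw [Matrix.nonsing_inv_mul _ hu, Matrix.one_mul, Matrix.mul_assoc,
                  Matrix.nonsing_inv_mul _ hu, Matrix.mul_one]
            _ = C⁻¹ * (c • 1) * C := by rw [← hbdef, hc]
            _ = c • 1 := by
                rw [Matrix.mul_smul, Matrix.smul_mul, Matrix.mul_one, Matrix.nonsing_inv_mul _ hu]
        rcases Nat.eq_zero_or_pos n with hn | hn
        · subst hn
          refine hb 0 ?_
          ext i
          exact i.elim0
        · refine hb ((blk B j j) ⟨0, hn⟩ ⟨0, hn⟩) ?_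
          have h2 : ∀ x y, (((blk B j j) x y : ℚ) : ℂ) = if x = y then c else 0 := by
            intro x y
            have h3 := congrFun (congrFun h1 x) y
            rw [tc, Matrix.map_apply, Matrix.smul_apply, Matrix.one_apply, smul_eq_mul] at h3
            rw [h3]
            split_ifs <;> simp
          ext x y
          rw [Matrix.smul_apply, Matrix.one_apply, smul_eq_mul]
          have h3 := h2 x y
          have h4 := h2 ⟨0, hn⟩ ⟨0, hn⟩
          rw [if_pos rfl] at h4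
          split_ifs with hxy
          · rw [if_pos hxy, ← h4] at h3
            rw [mul_one]
            exact_mod_cast h3
          · rw [if_neg hxy] at h3
            rw [mul_zero]
            exact_mod_cast h3
      · show b * 1 - 1 * b = 0
        rw [Matrix.mul_one, Matrix.one_mul, sub_self]
      · have h1 := hcomm Y Z hmem j j
        rw [← hbdef, Matrix.add_mul, Matrix.mul_add] at h1
        show Y j * b - b * Y j = b * Z - Z * b
        rw [sub_eq_sub_iff_add_eq_add, h1]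
        abel
  choose θ ψ hθ hψ hrel using hmaps
  have hdim := dim_ineq2 (sp S) T θ ψ (by
    intro Y hY
    set Y' : Fin k → Matrix (Fin n) (Fin n) ℂ := fun i => if h : i ∈ Gᶜ then Y ⟨i, h⟩ else 0 with hY'
    obtain ⟨Z, hZ, hmem⟩ := hT Y' (by
      intro i
      simp only [hY']
      split_ifs with h
      · exact hsp (hY _)
      · exact Submodule.zero_mem _)
    refine ⟨Z, hTT hZ, fun j => ?_⟩
    have h1 := hrel j Y' Z (by
      intro i hi
      simp only [hY']
      rw [dif_neg]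
      rw [Finset.mem_compl, not_not]
      exact hi) hmem
    have h2 : Y' j = Y j := by
      simp only [hY']
      rw [dif_pos j.2]
    rw [h2] at h1
    exact h1)
  have hsum : (Gᶜ).card * n ≤ ∑ j : {j // j ∈ Gᶜ}, finrank ℂ ((sp S).map (θ j)) := by
    calc (Gᶜ).card * n = ∑ _j : {j // j ∈ Gᶜ}, n := by
          rw [Finset.sum_const, Finset.card_univ, Fintype.card_coe, smul_eq_mul]
      _ ≤ _ := Finset.sum_le_sum fun j _ => hθ j
  rcases hν with hν | ⟨hn, h1T, hν⟩
  · omega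
  · have h1 : (1 : Matrix (Fin n) (Fin n) ℂ) ∈ (T ⊓ ⨅ j, LinearMap.ker (ψ j) : Submodule ℂ _) := by
      refine ⟨h1T, ?_⟩
      rw [SetLike.mem_coe, Submodule.mem_iInf]
      exact fun j => hψ j
    have : NeZero n := ⟨by omega⟩
    have h2 : (1 : Matrix (Fin n) (Fin n) ℂ) ≠ 0 := one_ne_zero
    have h3 : Nontrivial (T ⊓ ⨅ j, LinearMap.ker (ψ j) : Submodule ℂ _) :=
      ⟨⟨⟨1, h1⟩, 0, fun h => h2 (congrArg Subtype.val h)⟩⟩
    have h4 : 0 < finrank ℂ (T ⊓ ⨅ j, LinearMap.ker (ψ j) : Submodule ℂ _) := Module.finrank_pos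
    omega

end Pool.Agent.T2h17.AH
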