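import Mathlib

/-!
Tensor powers of matrices and their derivatives.
-/

set_option autoImplicit false
set_option maxHeartbeats 400000

open Matrix

namespace Pool.Agent.T2h17.AH

section ring
variable {R : Type} [CommRing R] {α β γ : Type} {a : ℕ}

/-- the tensor product of matrices -/
def tp (A : Fin a → Matrix α β R) : Matrix (Fin a → α) (Fin a → β) R :=
  Matrix.of fun i m => ∏ s, A s (i s) (m s)

theorem tp_apply (A : Fin a → Matrix α β R) (i : Fin a → α) (m : Fin a → β) :
    tp A i m = ∏ s, A s (i s) (m s) := rfl

theorem tp_mul [Fintype β] [DecidableEq β] (A : Fin a → Matrix α β R) (B : Fin a → Matrix β γ R) :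
    tp A * tp B = tp fun s => A s * B s := by
  ext i m
  rw [Matrix.mul_apply, tp_apply]
  simp only [tp_apply, Matrix.mul_apply]
  rw [Finset.prod_univ_sum, Fintype.piFinset_univ]
  exact Finset.sum_congr rfl fun q _ => Finset.prod_mul_distrib.symm

theorem tp_one [DecidableEq α] : tp (fun _ : Fin a => (1 : Matrix α α R)) = 1 := by
  ext i m
  rw [tp_apply, Matrix.one_apply]
  simp only [Matrix.one_apply]
  by_cases h : i = m
  · subst h
    simp
  · rw [if_neg h]
    obtain ⟨s, hs⟩ : ∃ s, i s ≠ m s := by
      by_contra hcon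
      push Not at hcon
      exact h (funext hcon)
    exact Finset.prod_eq_zero (Finset.mem_univ s) (if_neg hs)

/-- the tensor power -/
def pw (a : ℕ) (A : Matrix α β R) : Matrix (Fin a → α) (Fin a → β) R := tp fun _ => A

/-- the derivative of the tensor power at the identity -/
def dpw (a : ℕ) [DecidableEq α] (X : Matrix α α R) : Matrix (Fin a → α) (Fin a → α) R :=
  ∑ s, tp (Function.update (fun _ => (1 : Matrix α α R)) s X)

theorem pw_mul [Fintype β] [DecidableEq β] (A : Matrix α β R) (B : Matrix β γ R) :
    pw a (A * B) = pw a A * pw a B := (tp_mul _ _).symm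

theorem pw_one [DecidableEq α] : pw a (1 : Matrix α α R) = 1 := tp_one

theorem upd_mul [Fintype α] [DecidableEq α] (A : Matrix α β R) (X : Matrix α α R) (s : Fin a) :
    (fun s' => Function.update (fun _ => (1 : Matrix α α R)) s X s' * A) =
      Function.update (fun _ => A) s (X * A) := by
  funext s'
  by_cases h : s' = s
  · subst h
    rw [Function.update_self, Function.update_self]
  · rw [Function.update_of_ne h, Function.update_of_ne h, Matrix.one_mul]

theorem mul_upd [Fintype β] [DecidableEq β] (A : Matrix α β R) (X : Matrix β β R) (s : Fin a) :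
    (fun s' => A * Function.update (fun _ => (1 : Matrix β β R)) s X s') =
      Function.update (fun _ => A) s (A * X) := by
  funext s'
  by_cases h : s' = s
  · subst h
    rw [Function.update_self, Function.update_self]
  · rw [Function.update_of_ne h, Function.update_of_ne h, Matrix.mul_one]

theorem dpw_mul [Fintype α] [DecidableEq α] (A : Matrix α β R) (X : Matrix α α R) :
    dpw a X * pw a A = ∑ s, tp (Function.update (fun _ => A) s (X * A)) := by
  rw [dpw, Matrix.sum_mul]
  refine Finset.sum_congr rfl fun s _ => ?_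
  rw [pw, tp_mul, upd_mul]

theorem mul_dpw [Fintype β] [DecidableEq β] (A : Matrix α β R) (X : Matrix β β R) :
    pw a A * dpw a X = ∑ s, tp (Function.update (fun _ => A) s (A * X)) := by
  rw [dpw, Matrix.mul_sum]
  refine Finset.sum_congr rfl fun s _ => ?_
  rw [pw, tp_mul, mul_upd]

/-- intertwining matrices -/
theorem dpw_comm [Fintype α] [DecidableEq α] [Fintype β] [DecidableEq β] {A : Matrix α β R}
    {X : Matrix α α R} {Y : Matrix β β R} (h : X * A = A * Y) :
    dpw a X * pw a A = pw a A * dpw a Y := by
  rw [dpw_mul, mul_dpw, h]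

theorem tp_upd_add (A : Fin a → Matrix α β R) (s : Fin a) (X Y : Matrix α β R) :
    tp (Function.update A s (X + Y)) = tp (Function.update A s X) + tp (Function.update A s Y) := by
  ext i m
  rw [Matrix.add_apply, tp_apply, tp_apply, tp_apply, ← Finset.mul_prod_erase _ _ (Finset.mem_univ s),
    ← Finset.mul_prod_erase _ _ (Finset.mem_univ s), ← Finset.mul_prod_erase _ _ (Finset.mem_univ s),
    Function.update_self, Function.update_self, Function.update_self, Matrix.add_apply, add_mul]
  congr 2 <;>
  · refine Finset.prod_congr rfl fun s' hs' => ?_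
    rw [Function.update_of_ne (Finset.ne_of_mem_erase hs'), Function.update_of_ne (Finset.ne_of_mem_erase hs')]

theorem tp_upd_smul (A : Fin a → Matrix α β R) (s : Fin a) (c : R) (X : Matrix α β R) :
    tp (Function.update A s (c • X)) = c • tp (Function.update A s X) := by
  ext i m
  rw [Matrix.smul_apply, tp_apply, tp_apply, ← Finset.mul_prod_erase _ _ (Finset.mem_univ s),
    ← Finset.mul_prod_erase _ _ (Finset.mem_univ s),
    Function.update_self, Function.update_self, Matrix.smul_apply, smul_eq_mul, smul_eq_mul, mul_assoc]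
  congr 2
  refine Finset.prod_congr rfl fun s' hs' => ?_
  rw [Function.update_of_ne (Finset.ne_of_mem_erase hs'), Function.update_of_ne (Finset.ne_of_mem_erase hs')]

theorem dpw_add [DecidableEq α] (X Y : Matrix α α R) : dpw a (X + Y) = dpw a X + dpw a Y := by
  rw [dpw, dpw, dpw, ← Finset.sum_add_distrib]
  exact Finset.sum_congr rfl fun s _ => tp_upd_add _ _ _ _

theorem dpw_smul [DecidableEq α] (c : R) (X : Matrix α α R) : dpw a (c • X) = c • dpw a X := by
  rw [dpw, dpw, Finset.smul_sum]
  exact Finset.sum_congr rfl fun s _ => tp_upd_smul _ _ _ _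

theorem dpw_zero [DecidableEq α] : dpw a (0 : Matrix α α R) = 0 := by
  have h := dpw_smul (a := a) (0 : R) (0 : Matrix α α R)
  rwa [zero_smul, zero_smul] at h

theorem dpw_one [DecidableEq α] : dpw a (1 : Matrix α α R) = (a : R) • 1 := by
  have h : ∀ s : Fin a, Function.update (fun _ => (1 : Matrix α α R)) s 1 = fun _ => 1 := fun s =>
    Function.update_eq_self s _
  rw [dpw]
  simp only [h, tp_one]
  rw [Finset.sum_const, Finset.card_univ, Fintype.card_fin]
  exact (Nat.cast_smul_eq_nsmul R a _).symm

end ring

section der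
variable {k L : Type} [Field k] [Field L] [Algebra k L] {α β γ : Type} {a b : ℕ}

theorem der_prod (D : Derivation k L L) {ι : Type} [DecidableEq ι] (s : Finset ι) (f : ι → L) :
    D (∏ i ∈ s, f i) = ∑ i ∈ s, ∏ j ∈ s, Function.update f i (D (f i)) j := by
  induction s using Finset.induction_on with
  | empty => simp
  | insert c s hc ih =>
    rw [Finset.prod_insert hc, Derivation.leibniz, ih, Finset.sum_insert hc, smul_eq_mul, smul_eq_mul,
      Finset.prod_insert hc, Function.update_self, add_comm, mul_comm (∏ i ∈ s, f i)]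
    congr 1
    · congr 1
      refine Finset.prod_congr rfl fun j hj => ?_
      rw [Function.update_of_ne (fun h : j = c => hc (h ▸ hj))]
    · rw [Finset.mul_sum]
      refine Finset.sum_congr rfl fun i hi => ?_
      rw [Finset.prod_insert hc, Function.update_of_ne (fun h : c = i => hc (h ▸ hi))]

theorem tp_der (D : Derivation k L L) (A : Fin a → Matrix α β L) :
    (tp A).map D = ∑ s, tp (Function.update A s ((A s).map D)) := by
  ext i m
  rw [Matrix.map_apply, tp_apply, der_prod, Matrix.sum_apply]
  refine Finset.sum_congr rfl fun s _ => ?_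
  rw [tp_apply]
  refine Finset.prod_congr rfl fun s' _ => ?_
  by_cases h : s' = s
  · subst h
    rw [Function.update_self, Function.update_self, Matrix.map_apply]
  · rw [Function.update_of_ne h, Function.update_of_ne h]

theorem pw_der (D : Derivation k L L) [Fintype β] [DecidableEq β] {P : Matrix α β L}
    {Y : Matrix β β L} (h : P.map D = P * Y) : (pw a P).map D = pw a P * dpw a Y := by
  rw [mul_dpw, pw, tp_der]
  simp only [h]

theorem map_D_mul (D : Derivation k L L) [Fintype β] (A : Matrix α β L) (B : Matrix β γ L) :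
    (A * B).map D = A.map D * B + A * B.map D := by
  ext i j
  rw [Matrix.map_apply, Matrix.mul_apply, map_sum, Matrix.add_apply, Matrix.mul_apply, Matrix.mul_apply,
    ← Finset.sum_add_distrib]
  refine Finset.sum_congr rfl fun c _ => ?_
  rw [Derivation.leibniz, smul_eq_mul, smul_eq_mul, Matrix.map_apply, Matrix.map_apply]
  ring

/-- **the derivative of an invariant tensor** -/
theorem ten_der (D : Derivation k L L) [Fintype β] [DecidableEq β] {P P' Y : Matrix β β L}
    (hP : P * P' = 1) (hP' : P' * P = 1) (hD : P.map D = P * Y)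
    {T : Matrix (Fin a → β) (Fin b → β) L} (hT : T.map D = 0)
    {κ : L} (hκ : κ ≠ 0) {w : Matrix (Fin a → β) (Fin b → β) L} (hw : w.map D = 0)
    (h : pw a P * T * pw b P' = κ • w) :
    dpw a Y * T - T * dpw b Y = (D κ / κ) • T := by
  -- the inverse
  have hD' : P'.map D = -(Y * P') := by
    have h1 := map_D_mul D P P'
    rw [hP, hD] at h1
    have h2 : (1 : Matrix β β L).map D = 0 := by
      ext i j
      rw [Matrix.map_apply, Matrix.one_apply]
      split_ifs <;> simp
    rw [h2] at h1
    calc P'.map D = P' * (P * P'.map D) := by rw [← Matrix.mul_assoc, hP', Matrix.one_mul]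
      _ = P' * (-(P * Y * P')) := by
          congr 1
          exact eq_neg_of_add_eq_zero_right h1.symm
      _ = -(P' * P * Y * P') := by rw [Matrix.mul_neg]; simp only [Matrix.mul_assoc]
      _ = _ := by rw [hP', Matrix.one_mul]
  have hpP : pw a P * pw a P' = 1 := by rw [← pw_mul, hP, pw_one]
  have hpP' : pw a P' * pw a P = 1 := by rw [← pw_mul, hP', pw_one]
  have hqP : pw b P' * pw b P = 1 := by rw [← pw_mul, hP', pw_one]
  have h1 : (pw a P).map D = pw a P * dpw a Y := pw_der D hD
  have h2 : (pw b P').map D = -(dpw b Y * pw b P') := by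
    rw [dpw_mul, pw, tp_der, ← Finset.sum_neg_distrib]
    refine Finset.sum_congr rfl fun s _ => ?_
    have h3 : (-(Y * P')) = (-1 : L) • (Y * P') := by rw [neg_one_smul]
    rw [hD', h3, tp_upd_smul, neg_one_smul]
  have h3 := congrArg (fun M : Matrix (Fin a → β) (Fin b → β) L => M.map D) h
  rw [map_D_mul, map_D_mul, h1, h2, hT, Matrix.mul_zero, add_zero] at h3
  have h4 : (κ • w).map D = (D κ / κ) • (pw a P * T * pw b P') := by
    rw [h]
    ext i j
    rw [Matrix.map_apply, Matrix.smul_apply, smul_eq_mul, Derivation.leibniz, smul_eq_mul, smul_eq_mul,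
      Matrix.smul_apply, Matrix.smul_apply, smul_eq_mul, smul_eq_mul]
    have h5 : D (w i j) = 0 := by
      have := congrFun (congrFun hw i) j
      rwa [Matrix.map_apply, Matrix.zero_apply] at this
    rw [h5, mul_zero, zero_add, div_mul_eq_mul_div, mul_comm κ (w i j), ← mul_assoc, mul_div_assoc,
      div_self hκ, mul_one, mul_comm]
  rw [h4] at h3
  have h5 : pw a P * (dpw a Y * T - T * dpw b Y) * pw b P' = pw a P * ((D κ / κ) • T) * pw b P' := by
    rw [Matrix.mul_smul, Matrix.smul_mul, ← h3, Matrix.mul_sub, Matrix.sub_mul, Matrix.mul_neg,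
      ← sub_eq_add_neg]
    simp only [Matrix.mul_assoc]
  calc dpw a Y * T - T * dpw b Y =
        pw a P' * (pw a P * (dpw a Y * T - T * dpw b Y) * pw b P') * pw b P := by
        simp only [← Matrix.mul_assoc]
        rw [hpP', Matrix.one_mul, Matrix.mul_assoc _ (pw b P') (pw b P), hqP, Matrix.mul_one]
    _ = _ := by
        rw [h5]
        simp only [← Matrix.mul_assoc]
        rw [hpP', Matrix.one_mul, Matrix.mul_assoc _ (pw b P') (pw b P), hqP, Matrix.mul_one]

end der

end Pool.Agent.T2h17.AH
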